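import Pool.Agent.Lib.MP_3145b1_co.RD.Spec

/-!
# MP_3145b1_co, project RD: number of scales of finitely many points
-/

set_option autoImplicit false

namespace Pool.Agent.MP3145b1.RD

open Finset Pool.Agent.MP3145b1 Pool.Agent.MP3145b1.RC

/-- different elements have distance at least `r` -/
private def GCnt_sep (r : ℝ) (Q : Finset ℝ) : Prop := ∀ x ∈ Q, ∀ y ∈ Q, x ≠ y → r ≤ |x - y|

open Classical in
/-- the largest cardinality of an `r`-separated subset -/
private noncomputable def GCnt_N (V : Finset ℝ) (r : ℝ) : ℕ :=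
  (V.powerset.filter (fun Q => GCnt_sep r Q)).sup Finset.card

private theorem GCnt_ge (V Q : Finset ℝ) (r : ℝ) (h : Q ⊆ V) (hs : GCnt_sep r Q) :
    Q.card ≤ GCnt_N V r := by
  classical
  unfold GCnt_N
  exact Finset.le_sup (f := Finset.card) (mem_filter.mpr ⟨mem_powerset.mpr h, hs⟩)

private theorem GCnt_ex (V : Finset ℝ) (r : ℝ) :
    ∃ Q, Q ⊆ V ∧ GCnt_sep r Q ∧ Q.card = GCnt_N V r := by
  classical
  have hne : (V.powerset.filter (fun Q => GCnt_sep r Q)).Nonempty := by
    refine ⟨∅, mem_filter.mpr ⟨mem_powerset.mpr (empty_subset _), ?_⟩⟩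
    intro x hx
    exact absurd hx (notMem_empty x)
  obtain ⟨Q, hQ, hQ2⟩ := Finset.exists_mem_eq_sup _ hne Finset.card
  rw [mem_filter, mem_powerset] at hQ
  exact ⟨Q, hQ.1, hQ.2, hQ2.symm⟩

private theorem GCnt_le (V : Finset ℝ) (r : ℝ) : GCnt_N V r ≤ V.card := by
  obtain ⟨Q, h1, _, h3⟩ := GCnt_ex V r
  rw [← h3]
  exact card_le_card h1

private theorem GCnt_anti (V : Finset ℝ) (r r' : ℝ) (h : r ≤ r') : GCnt_N V r' ≤ GCnt_N V r := by
  obtain ⟨Q, h1, h2, h3⟩ := GCnt_ex V r'
  rw [← h3]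
  exact GCnt_ge V Q r h1 (fun x hx y hy hxy => h.trans (h2 x hx y hy hxy))

private theorem GCnt_step (V : Finset ℝ) (ρ x y : ℝ) (hρ : 0 < ρ) (hx : x ∈ V) (hy : y ∈ V)
    (h1 : ρ ≤ |x - y|) (h2 : |x - y| ≤ 12 * ρ) : GCnt_N V (32 * ρ) + 1 ≤ GCnt_N V ρ := by
  classical
  obtain ⟨Q, hQ, hs, hc⟩ := GCnt_ex V (32 * ρ)
  rw [← hc]
  have hxy : x ≠ y := by
    intro h
    rw [h, sub_self, abs_zero] at h1
    linarith
  by_cases hq : ∃ q0 ∈ Q, |q0 - x| < 16 * ρ
  · obtain ⟨q0, hq0, hlt⟩ := hq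
    have hfx : ∀ q ∈ Q.erase q0, 16 * ρ < |q - x| := by
      intro q hq
      rw [mem_erase] at hq
      have h3 := hs q hq.2 q0 hq0 hq.1
      have h4 : |q - q0| ≤ |q - x| + |x - q0| := abs_sub_le _ _ _
      rw [abs_sub_comm x q0] at h4
      linarith
    have hfy : ∀ q ∈ Q.erase q0, 4 * ρ < |q - y| := by
      intro q hq
      have h3 := hfx q hq
      have h4 : |q - x| ≤ |q - y| + |y - x| := abs_sub_le _ _ _
      rw [abs_sub_comm y x] at h4
      linarith
    have hye : y ∉ Q.erase q0 := by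
      intro h
      have := hfy y h
      rw [sub_self, abs_zero] at this
      linarith
    have hxe : x ∉ insert y (Q.erase q0) := by
      intro h
      rw [mem_insert] at h
      rcases h with h | h
      · exact hxy h
      · have := hfx x h
        rw [sub_self, abs_zero] at this
        linarith
    have hcard : (insert x (insert y (Q.erase q0))).card = Q.card + 1 := by
      rw [card_insert_of_notMem hxe, card_insert_of_notMem hye, card_erase_of_mem hq0]
      have : 0 < Q.card := card_pos.mpr ⟨q0, hq0⟩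
      omega
    rw [← hcard]
    apply GCnt_ge
    · intro z hz
      rw [mem_insert, mem_insert] at hz
      rcases hz with h | h | h
      · rw [h]; exact hx
      · rw [h]; exact hy
      · exact hQ (mem_of_mem_erase h)
    · intro z hz z' hz' hne
      rw [mem_insert, mem_insert] at hz hz'
      rcases hz with h | h | h <;> rcases hz' with h' | h' | h'
      · exact absurd (h.trans h'.symm) hne
      · rw [h, h']; exact h1
      · rw [h, abs_sub_comm]
        linarith [hfx z' h']
      · rw [h, h', abs_sub_comm]; exact h1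
      · exact absurd (h.trans h'.symm) hne
      · rw [h, abs_sub_comm]
        linarith [hfy z' h']
      · rw [h']
        linarith [hfx z h]
      · rw [h']
        linarith [hfy z h]
      · linarith [hs z (mem_of_mem_erase h) z' (mem_of_mem_erase h') hne]
  · push Not at hq
    have hxQ : x ∉ Q := by
      intro h
      have := hq x h
      rw [sub_self, abs_zero] at this
      linarith
    rw [← card_insert_of_notMem hxQ]
    apply GCnt_ge
    · intro z hz
      rw [mem_insert] at hz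
      rcases hz with h | h
      · rw [h]; exact hx
      · exact hQ h
    · intro z hz z' hz' hne
      rw [mem_insert] at hz hz'
      rcases hz with h | h <;> rcases hz' with h' | h'
      · exact absurd (h.trans h'.symm) hne
      · rw [h, abs_sub_comm]
        linarith [hq z' h']
      · rw [h']
        linarith [hq z h]
      · linarith [hs z h z' h' hne]

private theorem GCnt_tel (M : ℕ → ℝ) (n : ℕ) :
    ∑ k ∈ range n, (M (k + 5) - M k) = ∑ j ∈ range 5, M (n + j) - ∑ j ∈ range 5, M j := by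
  induction n with
  | zero => simp
  | succ n ih =>
    rw [sum_range_succ, ih]
    simp only [sum_range_succ, range_zero, sum_empty, zero_add, add_zero]
    have e1 : n + 1 + 1 = n + 2 := rfl
    have e2 : n + 1 + 2 = n + 3 := rfl
    have e3 : n + 1 + 3 = n + 4 := rfl
    have e4 : n + 1 + 4 = n + 5 := rfl
    rw [e1, e2, e3, e4]
    ring

theorem rGCnt : S_GCnt := by
  classical
  intro V b N0 hb
  have hb2 : ∀ k : ℕ, 0 < b * (1 / 2) ^ k := fun k => by positivity
  have h1 : ∀ k ∈ range N0,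
      (if ∃ x ∈ V, ∃ y ∈ V, b * (1 / 2) ^ k ≤ |x - y| ∧ |x - y| ≤ 12 * (b * (1 / 2) ^ k)
        then (1 : ℝ) else 0) ≤
      (fun k => (GCnt_N V (32 * (b * (1 / 2) ^ k)) : ℝ)) (k + 5) -
        (fun k => (GCnt_N V (32 * (b * (1 / 2) ^ k)) : ℝ)) k := by
    intro k _
    have e : 32 * (b * (1 / 2) ^ (k + 5)) = b * (1 / 2) ^ k := by
      rw [pow_add]
      ring
    simp only [e]
    split_ifs with h
    · obtain ⟨x, hx, y, hy, h2, h3⟩ := h
      have h4 := GCnt_step V (b * (1 / 2) ^ k) x y (hb2 k) hx hy h2 h3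
      have h5 : ((GCnt_N V (32 * (b * (1 / 2) ^ k)) : ℕ) : ℝ) + 1 ≤
          (GCnt_N V (b * (1 / 2) ^ k) : ℝ) := by exact_mod_cast h4
      linarith
    · have h4 := GCnt_anti V (b * (1 / 2) ^ k) (32 * (b * (1 / 2) ^ k))
        (by linarith [hb2 k])
      have h5 : ((GCnt_N V (32 * (b * (1 / 2) ^ k)) : ℕ) : ℝ) ≤
          (GCnt_N V (b * (1 / 2) ^ k) : ℝ) := by exact_mod_cast h4
      linarith
  refine (sum_le_sum h1).trans ?_
  rw [GCnt_tel (fun k => (GCnt_N V (32 * (b * (1 / 2) ^ k)) : ℝ))]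
  have h2 : ∑ j ∈ range 5, (fun k => (GCnt_N V (32 * (b * (1 / 2) ^ k)) : ℝ)) (N0 + j) ≤
      ∑ j ∈ range 5, (V.card : ℝ) := by
    apply sum_le_sum
    intro j _
    have h4 := GCnt_le V (32 * (b * (1 / 2) ^ (N0 + j)))
    show ((GCnt_N V (32 * (b * (1 / 2) ^ (N0 + j))) : ℕ) : ℝ) ≤ (V.card : ℝ)
    exact_mod_cast h4
  have h3 : 0 ≤ ∑ j ∈ range 5, (fun k => (GCnt_N V (32 * (b * (1 / 2) ^ k)) : ℝ)) j :=
    sum_nonneg fun _ _ => Nat.cast_nonneg _
  rw [sum_const, card_range, nsmul_eq_mul] at h2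
  push_cast at h2
  linarith

end Pool.Agent.MP3145b1.RD
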