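import Pool.Agent.Lib.MP_3145b1_co.RD.Spec

/-!
# MP_3145b1_co, project RD: energy in an interval
-/

set_option autoImplicit false

namespace Pool.Agent.MP3145b1.RD

open Finset Pool.Agent.MP3145b1 Pool.Agent.MP3145b1.RC

/-- one child in the interval -/
private lemma GEn_one {q b M M' N a : ℝ} (hq : 0 ≤ q) (hq1 : q ≤ 1) (hb : 0 < b) (hM : |M| ≤ b / 2)
    (hM' : |M'| ≤ b / 2) (h : |M - M'| = (1 - q) * a) :
    q * (4 * b ^ 2 - M' ^ 2 + b ^ 2 * N) ≤ 4 * b ^ 2 - M ^ 2 + b * (q * (1 - q) * a) + b ^ 2 * (q * N) := by
  have h1 : M ^ 2 - M' ^ 2 ≤ (1 - q) * a * b := by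
    have e : M ^ 2 - M' ^ 2 = (M - M') * (M + M') := by ring
    have h2 : |M + M'| ≤ b := by
      have := abs_add_le M M'
      linarith
    rw [e, ← h]
    calc (M - M') * (M + M') ≤ |(M - M') * (M + M')| := le_abs_self _
      _ = |M - M'| * |M + M'| := abs_mul _ _
      _ ≤ |M - M'| * b := mul_le_mul_of_nonneg_left h2 (abs_nonneg _)
  have h3 : q * (M ^ 2 - M' ^ 2) ≤ q * ((1 - q) * a * b) := mul_le_mul_of_nonneg_left h1 hq
  have h4 : M ^ 2 ≤ b ^ 2 := by
    have h5 : |M| ≤ |b| := by
      rw [abs_of_pos hb]
      linarith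
    exact sq_le_sq.2 h5
  have h6 : 0 ≤ (1 - q) * (4 * b ^ 2 - M ^ 2) := by
    apply mul_nonneg (by linarith)
    nlinarith [sq_nonneg b]
  nlinarith

private lemma GEn_claim {σ : Type} {s : ℕ → σ → Bool → σ} {p : ℕ → σ → ℝ} {m : ℕ → σ → ℝ}
    {A : ℕ → Finset σ} {b c : ℝ} (hp : Pb p) (hb : 0 < b) (hm : ∀ u, ∀ y ∈ A u, Mg s p m u y)
    (hA : ∀ u, ∀ y ∈ A u, |m u y - c| ≤ b / 2) (n : ℕ) :
    ∀ (u : ℕ) (y : σ), (|m u y - c| ≤ 3 * b / 2 ∨ y ∈ A u) →
      EV s p A (cS s p m b) 0 n u y ≤ 4 * b ^ 2 - (m u y - c) ^ 2 + b ^ 2 * EV s p A (cN s p m b) 0 n u y := by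
  have hbase : ∀ (u : ℕ) (y : σ), (|m u y - c| ≤ 3 * b / 2 ∨ y ∈ A u) →
      (0 : ℝ) ≤ 4 * b ^ 2 - (m u y - c) ^ 2 := by
    intro u y h
    have h1 : |m u y - c| ≤ 3 * b / 2 := by
      rcases h with h | h
      · exact h
      · have := hA u y h
        linarith
    have h2 : |m u y - c| ≤ |3 * b / 2| := by
      rw [abs_of_pos (by linarith : 0 < 3 * b / 2)]
      exact h1
    have h3 : (m u y - c) ^ 2 ≤ (3 * b / 2) ^ 2 := sq_le_sq.2 h2
    nlinarith [sq_nonneg b]
  have hN : ∀ (n u : ℕ) (y : σ), 0 ≤ EV s p A (cN s p m b) 0 n u y := by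
    intro n u y
    apply EV_nonneg s hp A
    · intro u y _
      unfold cN
      split_ifs
      · exact le_rfl
      · exact div_nonneg (mul_nonneg (vv_nonneg hp u y) (abs_nonneg _)) hb.le
    · intro u y
      exact le_rfl
  induction n with
  | zero =>
    intro u y h
    rw [EV_zero, EV_zero]
    simp only [Pi.zero_apply, mul_zero, add_zero]
    exact hbase u y h
  | succ n ih =>
    intro u y h
    by_cases hy : y ∈ A u
    · rw [EV_mem _ _ _ _ _ _ _ _ hy, EV_mem _ _ _ _ _ _ _ _ hy]
      have hch := (hm u y hy).child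
      have hsq := (hm u y hy).sq c
      have hM := hA u y hy
      have hq := hp u y
      have hNf := hN n (u + 1) (s u y false)
      have hNt := hN n (u + 1) (s u y true)
      by_cases ha : |al s m u y| ≤ b
      · have e1 : cS s p m b u y = vv p u y * al s m u y ^ 2 := by
          unfold cS
          rw [if_pos ha]
        have e2 : cN s p m b u y = 0 := by
          unfold cN
          rw [if_pos ha]
        rw [e1, e2]
        have h1 : |m (u + 1) (s u y false) - c| ≤ 3 * b / 2 := by
          rw [hch.1]
          have e : m u y + (1 - p u y) * al s m u y - c = (m u y - c) + (1 - p u y) * al s m u y := by ring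
          rw [e]
          have h2 := abs_add_le (m u y - c) ((1 - p u y) * al s m u y)
          have h3 : |(1 - p u y) * al s m u y| ≤ b := by
            rw [abs_mul, abs_of_nonneg (by linarith [hq.2] : 0 ≤ 1 - p u y)]
            calc (1 - p u y) * |al s m u y| ≤ 1 * |al s m u y| :=
                  mul_le_mul_of_nonneg_right (by linarith [hq.1]) (abs_nonneg _)
              _ ≤ b := by rw [one_mul]; exact ha
          linarith
        have h1' : |m (u + 1) (s u y true) - c| ≤ 3 * b / 2 := by
          rw [hch.2]
          have e : m u y - p u y * al s m u y - c = (m u y - c) + -(p u y * al s m u y) := by ring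
          rw [e]
          have h2 := abs_add_le (m u y - c) (-(p u y * al s m u y))
          have h3 : |-(p u y * al s m u y)| ≤ b := by
            rw [abs_neg, abs_mul, abs_of_nonneg hq.1]
            calc p u y * |al s m u y| ≤ 1 * |al s m u y| :=
                  mul_le_mul_of_nonneg_right hq.2 (abs_nonneg _)
              _ ≤ b := by rw [one_mul]; exact ha
          linarith
        have i1 := ih (u + 1) (s u y false) (Or.inl h1)
        have i2 := ih (u + 1) (s u y true) (Or.inl h1')
        have i3 := avg_mono hp u y i1 i2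
        nlinarith
      · have e1 : cS s p m b u y = 0 := by
          unfold cS
          rw [if_neg ha]
        have e2 : b ^ 2 * cN s p m b u y = b * (vv p u y * |al s m u y|) := by
          unfold cN
          rw [if_neg ha]
          field_simp
        have ha' : b < |al s m u y| := not_le.1 ha
        have hv : 0 ≤ b * (vv p u y * |al s m u y|) :=
          mul_nonneg hb.le (mul_nonneg (vv_nonneg hp u y) (abs_nonneg _))
        have hb0 := hbase u y (Or.inr hy)
        have hnot : ¬ (s u y false ∈ A (u + 1) ∧ s u y true ∈ A (u + 1)) := by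
          rintro ⟨k1, k2⟩
          have k3 := hA _ _ k1
          have k4 := hA _ _ k2
          have k5 : |al s m u y| ≤ b := by
            unfold al
            have e : m (u + 1) (s u y false) - m (u + 1) (s u y true) =
                (m (u + 1) (s u y false) - c) - (m (u + 1) (s u y true) - c) := by ring
            rw [e]
            have := abs_sub (m (u + 1) (s u y false) - c) (m (u + 1) (s u y true) - c)
            linarith
          exact ha k5
        have hz : ∀ (z : σ), z ∉ A (u + 1) → EV s p A (cS s p m b) 0 n (u + 1) z = 0 := by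
          intro z hz
          rw [EV_not _ _ _ _ _ _ _ _ hz]
          rfl
        have hq1 : 0 ≤ 1 - p u y := by linarith [hq.2]
        have g1 : 0 ≤ b ^ 2 * (p u y * EV s p A (cN s p m b) 0 n (u + 1) (s u y false)) :=
          mul_nonneg (sq_nonneg b) (mul_nonneg hq.1 hNf)
        have g2 : 0 ≤ b ^ 2 * ((1 - p u y) * EV s p A (cN s p m b) 0 n (u + 1) (s u y true)) :=
          mul_nonneg (sq_nonneg b) (mul_nonneg hq1 hNt)
        rw [e1, mul_add, e2, mul_add]
        by_cases k1 : s u y false ∈ A (u + 1)
        · have k2 : s u y true ∉ A (u + 1) := fun k2 => hnot ⟨k1, k2⟩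
          rw [hz _ k2]
          have i1 := ih (u + 1) (s u y false) (Or.inr k1)
          have i2 := mul_le_mul_of_nonneg_left i1 hq.1
          have i3 : |(m u y - c) - (m (u + 1) (s u y false) - c)| = (1 - p u y) * |al s m u y| := by
            rw [hch.1]
            have e : m u y - c - (m u y + (1 - p u y) * al s m u y - c) =
                -((1 - p u y) * al s m u y) := by ring
            rw [e, abs_neg, abs_mul, abs_of_nonneg hq1]
          have i4 := GEn_one (N := EV s p A (cN s p m b) 0 n (u + 1) (s u y false)) hq.1 hq.2 hb hM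
            (hA _ _ k1) i3
          unfold vv at hv ⊢
          linarith
        · rw [hz _ k1]
          by_cases k2 : s u y true ∈ A (u + 1)
          · have i1 := ih (u + 1) (s u y true) (Or.inr k2)
            have i2 := mul_le_mul_of_nonneg_left i1 hq1
            have i3 : |(m u y - c) - (m (u + 1) (s u y true) - c)| = (1 - (1 - p u y)) * |al s m u y| := by
              rw [hch.2]
              have e : m u y - c - (m u y - p u y * al s m u y - c) = p u y * al s m u y := by ring
              rw [e, abs_mul, abs_of_nonneg hq.1]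
              ring
            have i4 := GEn_one (N := EV s p A (cN s p m b) 0 n (u + 1) (s u y true)) hq1
              (by linarith [hq.1]) hb hM (hA _ _ k2) i3
            have e3 : (1 - p u y) * (1 - (1 - p u y)) * |al s m u y| = vv p u y * |al s m u y| := by
              unfold vv
              ring
            rw [e3] at i4
            linarith
          · rw [hz _ k2]
            linarith
    · rw [EV_not _ _ _ _ _ _ _ _ hy, EV_not _ _ _ _ _ _ _ _ hy]
      simp only [Pi.zero_apply, mul_zero, add_zero]
      exact hbase u y h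

theorem rGEn : S_GEn := by
  intro σ s p m A n t x b c hp hb hm hA
  have hN : 0 ≤ EV s p A (cN s p m b) 0 n t x := by
    apply EV_nonneg s hp A
    · intro u y _
      unfold cN
      split_ifs
      · exact le_rfl
      · exact div_nonneg (mul_nonneg (vv_nonneg hp u y) (abs_nonneg _)) hb.le
    · intro u y
      exact le_rfl
  have hb2 : 0 ≤ b ^ 2 * EV s p A (cN s p m b) 0 n t x := mul_nonneg (sq_nonneg b) hN
  by_cases hx : x ∈ A t
  · have h1 := GEn_claim hp hb hm hA n t x (Or.inr hx)
    have h2 := sq_nonneg (m t x - c)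
    linarith
  · rw [EV_not _ _ _ _ _ _ _ _ hx]
    have h3 : (0 : ℝ) ≤ b ^ 2 := sq_nonneg b
    have e : (0 : ℕ → σ → ℝ) t x = 0 := rfl
    rw [e]
    linarith

end Pool.Agent.MP3145b1.RD
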