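import Pool.Agent.Lib.MP_3145b1_co.RD.Spec

/-!
# MP_3145b1_co, project RD: small steps against large steps and shared scales
-/

set_option autoImplicit false

namespace Pool.Agent.MP3145b1.RD

open Finset Pool.Agent.MP3145b1 Pool.Agent.MP3145b1.RC

variable {σ : Type}

private theorem GExc_cN_nonneg (s : ℕ → σ → Bool → σ) {p : ℕ → σ → ℝ} (hp : Pb p) (m : ℕ → σ → ℝ)
    {ρ : ℝ} (hρ : 0 < ρ) (u : ℕ) (y : σ) : 0 ≤ cN s p m ρ u y := by
  unfold cN; split_ifs
  · exact le_rfl
  · exact div_nonneg (mul_nonneg (vv_nonneg hp u y) (abs_nonneg _)) hρ.le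

private theorem GExc_cS_nonneg (s : ℕ → σ → Bool → σ) {p : ℕ → σ → ℝ} (hp : Pb p) (m : ℕ → σ → ℝ)
    (ρ : ℝ) (u : ℕ) (y : σ) : 0 ≤ cS s p m ρ u y := by
  unfold cS; split_ifs
  · exact mul_nonneg (vv_nonneg hp u y) (sq_nonneg _)
  · exact le_rfl

private theorem GExc_cG_nonneg (s : ℕ → σ → Bool → σ) {p : ℕ → σ → ℝ} (hp : Pb p) (m : ℕ → σ → ℝ)
    (A : ℕ → Finset σ) {ρ : ℝ} (hρ : 0 < ρ) (u : ℕ) (y : σ) : 0 ≤ cG s p m A ρ u y := by
  unfold cG
  refine add_nonneg (GExc_cN_nonneg s hp m hρ u y) ?_
  split_ifs
  · exact div_nonneg (GExc_cS_nonneg s hp m ρ u y) (sq_nonneg _)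
  · exact le_rfl

private theorem GExc_cG_large (s : ℕ → σ → Bool → σ) (p : ℕ → σ → ℝ) (m : ℕ → σ → ℝ)
    (A : ℕ → Finset σ) (ρ : ℝ) (u : ℕ) (y : σ) (h : ρ < |al s m u y|) :
    cG s p m A ρ u y = vv p u y * |al s m u y| / ρ := by
  unfold cG cN cS
  rw [if_neg (not_le.2 h), if_neg (not_le.2 h)]
  simp

private theorem GExc_N_nonneg (s : ℕ → σ → Bool → σ) {p : ℕ → σ → ℝ} (hp : Pb p) (m : ℕ → σ → ℝ)
    (A : ℕ → Finset σ) {ρ : ℝ} (hρ : 0 < ρ) (n u : ℕ) (y : σ) :
    0 ≤ EV s p A (cG s p m A ρ) 0 n u y :=
  EV_nonneg s hp A (fun u y _ => GExc_cG_nonneg s hp m A hρ u y) (fun _ _ => le_rfl) n u y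

/-- (L) -/
private theorem GExc_L (s : ℕ → σ → Bool → σ) {p : ℕ → σ → ℝ} (hp : Pb p) (m : ℕ → σ → ℝ)
    (A : ℕ → Finset σ) (ρ D : ℝ) (hD0 : 0 ≤ D)
    (n : ℕ) (ih : ∀ k < n, ∀ (t : ℕ) (x : σ),
      EV s p A (cS s p m ρ) 0 k t x ≤ D * (1 + 8 * EV s p A (cG s p m A ρ) 0 k t x))
    (k : ℕ) (hk : k ≤ n) (u : ℕ) (y : σ) (hy : y ∈ A u) (hs : ρ < |al s m u y|)
    (hst : 1 / 4 ≤ vv p u y * |al s m u y| / ρ) :
    EV s p A (cS s p m ρ) 0 k u y ≤ D * (8 * EV s p A (cG s p m A ρ) 0 k u y) := by
  cases k with
  | zero =>
    rw [EV_zero, EV_zero]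
    simp
  | succ k =>
    rw [EV_mem _ _ _ _ _ _ _ _ hy, EV_mem _ _ _ _ _ _ _ _ hy]
    have e1 : cS s p m ρ u y = 0 := by unfold cS; rw [if_neg (not_le.2 hs)]
    have e2 : cG s p m A ρ u y = vv p u y * |al s m u y| / ρ := GExc_cG_large s p m A ρ u y hs
    rw [e1, e2]
    have h1 := avg_mono hp u y (ih k (by omega) (u + 1) (s u y false))
      (ih k (by omega) (u + 1) (s u y true))
    have h2 : 0 ≤ D * (8 * (vv p u y * |al s m u y| / ρ) - 1) :=
      mul_nonneg hD0 (by linarith)
    linarith

/-- weak states -/
private def GExc_WK (s : ℕ → σ → Bool → σ) (p : ℕ → σ → ℝ) (m : ℕ → σ → ℝ) (ρ : ℝ) (u : ℕ) (y : σ) :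
    Prop := ρ < |al s m u y| ∧ vv p u y * |al s m u y| / ρ < 1 / 4

open Classical in
/-- the rare bit -/
private noncomputable def GExc_ra (p : ℕ → σ → ℝ) (u : ℕ) (y : σ) : Bool :=
  if p u y ≤ 1 / 2 then false else true

open Classical in
private noncomputable def GExc_s (s : ℕ → σ → Bool → σ) (p : ℕ → σ → ℝ) (m : ℕ → σ → ℝ) (ρ : ℝ)
    (u : ℕ) : Option σ → Bool → Option σ
  | none, _ => none
  | some y, b => if GExc_WK s p m ρ u y ∧ b = GExc_ra p u y then none else some (s u y b)

private noncomputable def GExc_p (p : ℕ → σ → ℝ) (u : ℕ) : Option σ → ℝ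
  | none => 0
  | some y => p u y

private noncomputable def GExc_m (m : ℕ → σ → ℝ) (ρ : ℝ) (u : ℕ) : Option σ → ℝ
  | none => 0
  | some y => m u y / ρ

open Classical in
private noncomputable def GExc_ν (s : ℕ → σ → Bool → σ) (p : ℕ → σ → ℝ) (m : ℕ → σ → ℝ)
    (A : ℕ → Finset σ) (ρ : ℝ) (u : ℕ) : Option σ → ℝ
  | none => 0
  | some y => if GExc_WK s p m ρ u y then vv p u y * |al s m u y| / ρ else
      (if Pr m A ρ u then cS s p m ρ u y / ρ ^ 2 else 0)

private theorem GExc_s_small (s : ℕ → σ → Bool → σ) (p : ℕ → σ → ℝ) (m : ℕ → σ → ℝ) (ρ : ℝ)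
    (u : ℕ) (y : σ) (b : Bool) (h : ¬ GExc_WK s p m ρ u y) :
    GExc_s s p m ρ u (some y) b = some (s u y b) := by
  simp only [GExc_s]
  rw [if_neg (fun h' => h h'.1)]

private theorem GExc_s_rare (s : ℕ → σ → Bool → σ) (p : ℕ → σ → ℝ) (m : ℕ → σ → ℝ) (ρ : ℝ)
    (u : ℕ) (y : σ) (b : Bool) (h : GExc_WK s p m ρ u y) (hb : b = GExc_ra p u y) :
    GExc_s s p m ρ u (some y) b = none := by
  simp only [GExc_s]
  rw [if_pos ⟨h, hb⟩]

private theorem GExc_s_freq (s : ℕ → σ → Bool → σ) (p : ℕ → σ → ℝ) (m : ℕ → σ → ℝ) (ρ : ℝ)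
    (u : ℕ) (y : σ) (b : Bool) (hb : b ≠ GExc_ra p u y) :
    GExc_s s p m ρ u (some y) b = some (s u y b) := by
  simp only [GExc_s]
  rw [if_neg (fun h' => hb h'.2)]

private theorem GExc_ra1 (p : ℕ → σ → ℝ) (u : ℕ) (y : σ) (h : p u y ≤ 1 / 2) :
    GExc_ra p u y = false := by
  unfold GExc_ra; rw [if_pos h]

private theorem GExc_ra2 (p : ℕ → σ → ℝ) (u : ℕ) (y : σ) (h : ¬ p u y ≤ 1 / 2) :
    GExc_ra p u y = true := by
  unfold GExc_ra; rw [if_neg h]

private theorem GExc_ν_weak (s : ℕ → σ → Bool → σ) (p : ℕ → σ → ℝ) (m : ℕ → σ → ℝ)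
    (A : ℕ → Finset σ) (ρ : ℝ) (u : ℕ) (y : σ) (h : GExc_WK s p m ρ u y) :
    GExc_ν s p m A ρ u (some y) = vv p u y * |al s m u y| / ρ := by
  simp only [GExc_ν]
  rw [if_pos h]

private theorem GExc_ν_nonneg (s : ℕ → σ → Bool → σ) {p : ℕ → σ → ℝ} (hp : Pb p) (m : ℕ → σ → ℝ)
    (A : ℕ → Finset σ) {ρ : ℝ} (hρ : 0 < ρ) (u : ℕ) (o : Option σ) : 0 ≤ GExc_ν s p m A ρ u o := by
  cases o with
  | none => exact le_rfl
  | some y =>
    simp only [GExc_ν]
    by_cases h : GExc_WK s p m ρ u y
    · rw [if_pos h]
      exact div_nonneg (mul_nonneg (vv_nonneg hp u y) (abs_nonneg _)) hρ.le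
    · rw [if_neg h]
      split_ifs
      · exact div_nonneg (GExc_cS_nonneg s hp m ρ u y) (sq_nonneg _)
      · exact le_rfl

/-- at a small state: the cost is `ν` -/
private theorem GExc_ν_small (s : ℕ → σ → Bool → σ) (p : ℕ → σ → ℝ) (m : ℕ → σ → ℝ)
    (A : ℕ → Finset σ) (ρ : ℝ) (u : ℕ) (y : σ) (hs : |al s m u y| ≤ ρ) :
    GExc_ν s p m A ρ u (some y) = cG s p m A ρ u y := by
  simp only [GExc_ν]
  rw [if_neg (fun h : GExc_WK s p m ρ u y => absurd h.1 (not_lt.2 hs))]
  unfold cG cN
  rw [if_pos hs, zero_add]

private theorem GExc_ν_energy (s : ℕ → σ → Bool → σ) (p : ℕ → σ → ℝ) (m : ℕ → σ → ℝ)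
    (A : ℕ → Finset σ) (ρ : ℝ) (u : ℕ) (y : σ) (hs : |al s m u y| ≤ ρ) (hP : Pr m A ρ u) :
    GExc_ν s p m A ρ u (some y) = vv p u y * al s m u y ^ 2 / ρ ^ 2 := by
  rw [GExc_ν_small s p m A ρ u y hs]
  unfold cG cN cS
  rw [if_pos hs, if_pos hs, if_pos hP, zero_add]

/-- the energy at a weak state -/
private theorem GExc_weak_energy {ρ π α v : ℝ} (hρ : 0 < ρ) (hπ0 : 0 ≤ π)
    (h : π * |α| ≤ 2 * (v * |α| / ρ) * ρ) (hw : v * |α| / ρ < 1 / 4) :
    (1 - π) * (π * α / ρ) ^ 2 ≤ v * |α| / ρ := by
  have h1 : (π * α / ρ) ^ 2 = (π * |α| / ρ) ^ 2 := by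
    rw [div_pow, div_pow, mul_pow, mul_pow, sq_abs]
  have h2 : π * |α| / ρ ≤ 2 * (v * |α| / ρ) := by
    rw [div_le_iff₀ hρ]
    exact h
  have h3 : 0 ≤ π * |α| / ρ := by positivity
  obtain ⟨ν, hν⟩ : ∃ ν, ν = v * |α| / ρ := ⟨_, rfl⟩
  obtain ⟨τ, hτ⟩ : ∃ τ, τ = π * |α| / ρ := ⟨_, rfl⟩
  rw [h1, ← hν, ← hτ]
  rw [← hν, ← hτ] at h2
  rw [← hτ] at h3
  rw [← hν] at hw
  have h4 : τ ^ 2 ≤ ν := by nlinarith
  have h5 : 0 ≤ π * τ ^ 2 := mul_nonneg hπ0 (sq_nonneg _)
  linarith

private theorem GExc_Pb {p : ℕ → σ → ℝ} (hp : Pb p) : Pb (GExc_p p) := by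
  intro u o
  cases o with
  | none => simp [GExc_p]
  | some y => exact hp u y

/-- the numbers at a weak state: `π` probability of the rare bit, `δ` the change of the value at the
frequent child -/
private theorem GExc_num {ρ π α v : ℝ} (hρ : 0 < ρ) (hπ0 : 0 ≤ π) (hπ1 : π ≤ 1 / 2)
    (hv : v = π * (1 - π)) (hα : ρ < |α|) (hw : v * |α| / ρ < 1 / 4) :
    π ≤ 2 * (v * |α| / ρ) ∧ π * |α| ≤ 2 * (v * |α| / ρ) * ρ ∧ π * |α| ≤ ρ := by
  have h1 : π ≤ 2 * v := by rw [hv]; nlinarith
  have hv0 : 0 ≤ v := by linarith
  have h2 : v ≤ v * |α| / ρ := by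
    rw [le_div_iff₀ hρ]
    exact mul_le_mul_of_nonneg_left hα.le hv0
  have h3 : 2 * (v * |α| / ρ) * ρ = 2 * v * |α| := by field_simp
  refine ⟨by linarith, ?_, ?_⟩
  · rw [h3]
    exact mul_le_mul_of_nonneg_right h1 (abs_nonneg _)
  · have h4 : π * |α| ≤ 2 * (v * |α| / ρ) * ρ := by
      rw [h3]
      exact mul_le_mul_of_nonneg_right h1 (abs_nonneg _)
    nlinarith

/-- the final inequality at a weak state -/
private theorem GExc_fin {K ρ D π ν a y f : ℝ} (hK : 1 ≤ K) (hρ : 0 < ρ) (hD : (K + 1) ^ 2 * ρ ^ 2 ≤ D)
    (hπ0 : 0 ≤ π) (hπ : π ≤ 2 * ν) (hfy : |f - y| ≤ 2 * ν * ρ)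
    (hy : |y - a| ≤ (K + 1) * ρ) (hf : |f - a| ≤ (K + 1) * ρ) :
    (1 - π) * ((K + 1) ^ 2 * ρ ^ 2 - (f - a) ^ 2) + π * D ≤
      (K + 1) ^ 2 * ρ ^ 2 - (y - a) ^ 2 + 6 * ν * D := by
  have hν : 0 ≤ ν := by linarith
  have h1 : (f - a) ^ 2 ≤ (K + 1) ^ 2 * ρ ^ 2 := by
    rw [← sq_abs (f - a), ← mul_pow]
    exact pow_le_pow_left₀ (abs_nonneg _) hf 2
  have h2 : 0 ≤ π * ((K + 1) ^ 2 * ρ ^ 2 - (f - a) ^ 2) := mul_nonneg hπ0 (by linarith)
  have hD0 : 0 ≤ D := le_trans (by positivity) hD
  have h3 : π * D ≤ 2 * ν * D := mul_le_mul_of_nonneg_right hπ hD0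
  have h4 : (y - a) ^ 2 - (f - a) ^ 2 ≤ 2 * ν * ρ * (2 * ((K + 1) * ρ)) := by
    have e : (y - a) ^ 2 - (f - a) ^ 2 = -(f - y) * ((y - a) + (f - a)) := by ring
    rw [e]
    calc -(f - y) * ((y - a) + (f - a)) ≤ |-(f - y) * ((y - a) + (f - a))| := le_abs_self _
      _ = |f - y| * |(y - a) + (f - a)| := by rw [abs_mul, abs_neg]
      _ ≤ 2 * ν * ρ * (2 * ((K + 1) * ρ)) := by
        apply mul_le_mul hfy _ (abs_nonneg _) (by positivity)
        have := abs_add_le (y - a) (f - a)
        linarith
  have h5 : (K + 1) * ρ ^ 2 ≤ D := by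
    refine le_trans ?_ hD
    have : 0 ≤ (K + 1) * K * ρ ^ 2 := by positivity
    nlinarith
  have h6 : 2 * ν * ρ * (2 * ((K + 1) * ρ)) ≤ 4 * ν * D := by
    have := mul_le_mul_of_nonneg_left h5 (by linarith : 0 ≤ 4 * ν)
    nlinarith
  linarith

theorem rGExc (h1 : S_GPk) : S_GExc := by
  intro σ s p m A ρ n t x hp hρ hMg
  classical
  obtain ⟨K, hK7⟩ : ∃ K : ℝ, K = 7 := ⟨_, rfl⟩
  obtain ⟨c, hc448⟩ : ∃ c : ℝ, c = 1 / 448 := ⟨_, rfl⟩
  have hK : 1 ≤ K := by rw [hK7]; norm_num
  have hc : 0 < c := by rw [hc448]; norm_num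
  have hc1 : c ≤ 1 := by rw [hc448]; norm_num
  have hDD : (28672 : ℝ) * ρ ^ 2 = (K + 1) ^ 2 / c * ρ ^ 2 := by
    rw [hK7, hc448]; norm_num
  rw [hDD]
  set D : ℝ := (K + 1) ^ 2 / c * ρ ^ 2 with hD
  have hDc : D * c = (K + 1) ^ 2 * ρ ^ 2 := by
    rw [hD]; field_simp
  have hD0 : 0 ≤ D := by rw [hD]; positivity
  have hD1 : (K + 1) ^ 2 * ρ ^ 2 ≤ D := by
    rw [← hDc]
    nlinarith
  induction n using Nat.strong_induction_on generalizing t x with
  | _ n ih =>
    have hN := GExc_N_nonneg s hp m A hρ n t x
    by_cases hx : x ∈ A t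
    swap
    · rw [EV_not s p A (cS s p m ρ) 0 n t x hx]
      have : 0 ≤ D * (1 + 8 * EV s p A (cG s p m A ρ) 0 n t x) := mul_nonneg hD0 (by linarith)
      simpa using this
    by_cases hs : ρ < |al s m t x| ∧ 1 / 4 ≤ vv p t x * |al s m t x| / ρ
    · have h := GExc_L s hp m A ρ D hD0 n ih n le_rfl t x hx hs.1 hs.2
      linarith
    -- the main case
    set a : ℝ := m t x with ha
    set R : ℕ → Finset σ := fun u => (A u).filter (fun y =>
      ¬ (ρ < |al s m u y| ∧ 1 / 4 ≤ vv p u y * |al s m u y| / ρ) ∧ |m u y - a| < K * ρ) with hR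
    set E : ℕ → Set σ := fun u => {y | y ∈ A u ∧
      ¬ (ρ < |al s m u y| ∧ 1 / 4 ≤ vv p u y * |al s m u y| / ρ) ∧ K * ρ ≤ |m u y - a|} with hE
    have hKρ : 0 < K * ρ := mul_pos (by linarith) hρ
    have memR : ∀ u y, y ∈ R u ↔ y ∈ A u ∧
        ¬ (ρ < |al s m u y| ∧ 1 / 4 ≤ vv p u y * |al s m u y| / ρ) ∧ |m u y - a| < K * ρ := by
      intro u y
      simp only [hR, Finset.mem_filter]
    have memE : ∀ u y, y ∈ E u ↔ y ∈ A u ∧
        ¬ (ρ < |al s m u y| ∧ 1 / 4 ≤ vv p u y * |al s m u y| / ρ) ∧ K * ρ ≤ |m u y - a| :=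
      fun u y => Iff.rfl
    have hxR : x ∈ R t := by
      rw [memR]
      refine ⟨hx, hs, ?_⟩
      rw [ha]; simpa using hKρ
    -- the new program
    set s' := GExc_s s p m ρ with hs'
    set p' := GExc_p p with hp'
    set m' := GExc_m m ρ with hm'
    set ν' := GExc_ν s p m A ρ with hν'
    set R' : ℕ → Finset (Option σ) := fun u => (R u).map Function.Embedding.some with hR'
    set E' : ℕ → Set (Option σ) := fun u => {o | ∃ y ∈ E u, o = some y} with hE'
    have hPb' : Pb p' := GExc_Pb hp
    have memR' : ∀ u y, some y ∈ R' u ↔ y ∈ R u := by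
      intro u y
      simp [hR']
    have noneR' : ∀ u, none ∉ R' u := by
      intro u
      simp [hR']
    have memE' : ∀ u y, some y ∈ E' u ↔ y ∈ E u := by
      intro u y
      constructor
      · rintro ⟨z, hz, he⟩
        rwa [Option.some.inj he]
      · intro h
        exact ⟨y, h, rfl⟩
    have noneE' : ∀ u, none ∉ E' u := by
      rintro u ⟨z, hz, he⟩
      cases he
    have hν0 : ∀ u, ∀ o ∈ R' u, 0 ≤ ν' u o := by
      intro u o _
      exact GExc_ν_nonneg s hp m A hρ u o
    -- the two kinds of states of R
    have kinds : ∀ u y, y ∈ R u → (|al s m u y| ≤ ρ ∧ ¬ GExc_WK s p m ρ u y) ∨ GExc_WK s p m ρ u y := by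
      intro u y hy
      have h := ((memR u y).1 hy).2.1
      by_cases h1 : |al s m u y| ≤ ρ
      · left
        exact ⟨h1, fun h2 => absurd h2.1 (not_lt.2 h1)⟩
      · right
        push Not at h1
        refine ⟨h1, ?_⟩
        by_contra h3
        push Not at h3
        exact h ⟨h1, h3⟩
    have hpk : c ≤ EV s' p' R' ν' (fun u o => 1 - ind E' u o) n t (some x) := by
      rw [hc448]
      have hPr : ∀ u, Pr m' R' 1 u → Pr m A ρ u := by
        rintro u ⟨o1, ho1, o2, ho2, g1, g2⟩
        cases o1 with
        | none => exact absurd ho1 (noneR' u)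
        | some y1 =>
          cases o2 with
          | none => exact absurd ho2 (noneR' u)
          | some y2 =>
            change 1 ≤ |m u y1 / ρ - m u y2 / ρ| at g1
            change |m u y1 / ρ - m u y2 / ρ| ≤ 12 * 1 at g2
            rw [← sub_div, abs_div, abs_of_pos hρ] at g1 g2
            rw [le_div_iff₀ hρ] at g1
            rw [div_le_iff₀ hρ] at g2
            exact ⟨y1, ((memR u y1).1 ((memR' u y1).1 ho1)).1, y2,
              ((memR u y2).1 ((memR' u y2).1 ho2)).1, by linarith, by linarith⟩
      apply h1 (Option σ) s' p' m' R' E' ν' t n (some x) hPb' ((memR' t x).2 hxR)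
      · intro u o ho
        cases o with
        | none => exact absurd ho (noneR' u)
        | some y =>
          have hy := (memR' u y).1 ho
          have hyA := ((memR u y).1 hy).1
          have hm := hMg u y hyA
          have hch := hm.child
          have hpy := hp u y
          rcases kinds u y hy with ⟨h1, h2⟩ | hw
          · refine ⟨fun b => m (u + 1) (s u y b) / ρ, ?_, ?_, ?_, ?_⟩
            · intro b
              change |m (u + 1) (s u y b) / ρ - m u y / ρ| ≤ 1
              rw [← sub_div, abs_div, abs_of_pos hρ, div_le_one hρ]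
              refine le_trans ?_ h1
              cases b with
              | false =>
                rw [hch.1, add_sub_cancel_left, abs_mul]
                have : |1 - p u y| ≤ 1 := by rw [abs_le]; constructor <;> linarith [hpy.1, hpy.2]
                nlinarith [abs_nonneg (al s m u y)]
              | true =>
                rw [hch.2]
                have e : m u y - p u y * al s m u y - m u y = -(p u y * al s m u y) := by ring
                rw [e, abs_neg, abs_mul]
                have : |p u y| ≤ 1 := by rw [abs_le]; constructor <;> linarith [hpy.1, hpy.2]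
                nlinarith [abs_nonneg (al s m u y)]
            · intro b _
              rw [hs', GExc_s_small s p m ρ u y b h2]
              rfl
            · have e1 : p' u (some y) * (m (u + 1) (s u y false) / ρ) +
                  (1 - p' u (some y)) * (m (u + 1) (s u y true) / ρ) - m' u (some y) = 0 := by
                change p u y * (m (u + 1) (s u y false) / ρ) +
                  (1 - p u y) * (m (u + 1) (s u y true) / ρ) - m u y / ρ = 0
                rw [hch.1, hch.2]
                ring
              rw [e1, abs_zero]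
              exact GExc_ν_nonneg s hp m A hρ u (some y)
            · intro hP
              have e0 : ν' u (some y) = vv p u y * al s m u y ^ 2 / ρ ^ 2 :=
                GExc_ν_energy s p m A ρ u y h1 (hPr u hP)
              rw [e0]
              change p u y * (m (u + 1) (s u y false) / ρ - m u y / ρ) ^ 2 +
                (1 - p u y) * (m (u + 1) (s u y true) / ρ - m u y / ρ) ^ 2 ≤ _
              rw [hch.1, hch.2]
              refine le_of_eq ?_
              unfold vv
              field_simp
              ring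
          · have hνw : ν' u (some y) = vv p u y * |al s m u y| / ρ := GExc_ν_weak s p m A ρ u y hw
            by_cases hph : p u y ≤ 1 / 2
            · have hra := GExc_ra1 p u y hph
              have hnum := GExc_num (v := vv p u y) hρ hpy.1 hph rfl hw.1 hw.2
              refine ⟨fun b => if b = false then m u y / ρ else m (u + 1) (s u y b) / ρ, ?_, ?_, ?_, ?_⟩
              · intro b
                cases b with
                | false =>
                  change |m u y / ρ - m u y / ρ| ≤ 1
                  rw [sub_self, abs_zero]; exact zero_le_one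
                | true =>
                  change |m (u + 1) (s u y true) / ρ - m u y / ρ| ≤ 1
                  rw [← sub_div, abs_div, abs_of_pos hρ, div_le_one hρ, hch.2]
                  have e : m u y - p u y * al s m u y - m u y = -(p u y * al s m u y) := by ring
                  rw [e, abs_neg, abs_mul, abs_of_nonneg hpy.1]
                  exact hnum.2.2
              · intro b hb
                cases b with
                | false =>
                  rw [hs', GExc_s_rare s p m ρ u y false hw hra.symm] at hb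
                  rcases hb with hb | hb
                  · exact absurd hb (noneR' _)
                  · exact absurd hb (noneE' _)
                | true =>
                  rw [hs', GExc_s_freq s p m ρ u y true (by rw [hra]; decide)]
                  rfl
              · rw [hνw]
                change |p u y * (m u y / ρ) + (1 - p u y) * (m (u + 1) (s u y true) / ρ) - m u y / ρ| ≤ _
                rw [hch.2]
                have e : p u y * (m u y / ρ) + (1 - p u y) * ((m u y - p u y * al s m u y) / ρ) -
                    m u y / ρ = -(vv p u y * al s m u y / ρ) := by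
                  unfold vv; ring
                rw [e, abs_neg, abs_div, abs_mul, abs_of_nonneg (vv_nonneg hp u y), abs_of_pos hρ]
              · intro _
                rw [hνw]
                change p u y * (m u y / ρ - m u y / ρ) ^ 2 +
                  (1 - p u y) * (m (u + 1) (s u y true) / ρ - m u y / ρ) ^ 2 ≤ _
                have h9 := GExc_weak_energy (α := al s m u y) (v := vv p u y) hρ hpy.1 hnum.2.1 hw.2
                have e : p u y * (m u y / ρ - m u y / ρ) ^ 2 +
                    (1 - p u y) * (m (u + 1) (s u y true) / ρ - m u y / ρ) ^ 2 =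
                    (1 - p u y) * (p u y * al s m u y / ρ) ^ 2 := by
                  rw [hch.2]; ring
                rw [e]
                exact h9
            · have hra := GExc_ra2 p u y hph
              push Not at hph
              have hnum := GExc_num (v := vv p u y) (π := 1 - p u y) hρ (by linarith [hpy.2])
                (by linarith) (by unfold vv; ring) hw.1 hw.2
              refine ⟨fun b => if b = true then m u y / ρ else m (u + 1) (s u y b) / ρ, ?_, ?_, ?_, ?_⟩
              · intro b
                cases b with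
                | true =>
                  change |m u y / ρ - m u y / ρ| ≤ 1
                  rw [sub_self, abs_zero]; exact zero_le_one
                | false =>
                  change |m (u + 1) (s u y false) / ρ - m u y / ρ| ≤ 1
                  rw [← sub_div, abs_div, abs_of_pos hρ, div_le_one hρ, hch.1, add_sub_cancel_left,
                    abs_mul, abs_of_nonneg (by linarith [hpy.2] : 0 ≤ 1 - p u y)]
                  exact hnum.2.2
              · intro b hb
                cases b with
                | true =>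
                  rw [hs', GExc_s_rare s p m ρ u y true hw hra.symm] at hb
                  rcases hb with hb | hb
                  · exact absurd hb (noneR' _)
                  · exact absurd hb (noneE' _)
                | false =>
                  rw [hs', GExc_s_freq s p m ρ u y false (by rw [hra]; decide)]
                  rfl
              · rw [hνw]
                change |p u y * (m (u + 1) (s u y false) / ρ) + (1 - p u y) * (m u y / ρ) - m u y / ρ| ≤ _
                rw [hch.1]
                have e : p u y * ((m u y + (1 - p u y) * al s m u y) / ρ) + (1 - p u y) * (m u y / ρ) -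
                    m u y / ρ = vv p u y * al s m u y / ρ := by
                  unfold vv; ring
                rw [e, abs_div, abs_mul, abs_of_nonneg (vv_nonneg hp u y), abs_of_pos hρ]
              · intro _
                rw [hνw]
                change p u y * (m (u + 1) (s u y false) / ρ - m u y / ρ) ^ 2 +
                  (1 - p u y) * (m u y / ρ - m u y / ρ) ^ 2 ≤ _
                have h9 := GExc_weak_energy (α := al s m u y) (v := vv p u y) (π := 1 - p u y) hρ
                  (by linarith [hpy.2]) hnum.2.1 hw.2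
                have e : p u y * (m (u + 1) (s u y false) / ρ - m u y / ρ) ^ 2 +
                    (1 - p u y) * (m u y / ρ - m u y / ρ) ^ 2 =
                    (1 - (1 - p u y)) * ((1 - p u y) * al s m u y / ρ) ^ 2 := by
                  rw [hch.1]; ring
                rw [e]
                exact h9
      · intro u o ho
        cases o with
        | none => exact absurd ho (noneR' u)
        | some y =>
          have hy := (memR' u y).1 ho
          change |m u y / ρ - m t x / ρ| < 7
          rw [← hK7, ← sub_div, abs_div, abs_of_pos hρ, div_lt_iff₀ hρ]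
          exact ((memR u y).1 hy).2.2
      · intro u o ho
        cases o with
        | none => exact absurd ho (noneE' u)
        | some y =>
          have hy := (memE' u y).1 ho
          change 7 ≤ |m u y / ρ - m t x / ρ|
          rw [← hK7, ← sub_div, abs_div, abs_of_pos hρ, le_div_iff₀ hρ]
          exact ((memE u y).1 hy).2.2
    have hYn : ∀ k u o, 0 ≤ EV s' p' R' ν' 0 k u o := fun k u o =>
      EV_nonneg s' hPb' R' hν0 (fun _ _ => le_rfl) k u o
    have hZn : ∀ k u o, 0 ≤ EV s' p' R' 0 (ind E') k u o := fun k u o =>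
      EV_ind_nonneg s' hPb' R' E' k u o
    have key : ∀ k : ℕ, ∀ u y, ((k ≤ n ∧ y ∈ R u) ∨ (k < n ∧ |m u y - a| ≤ (K + 1) * ρ)) →
        EV s p A (cS s p m ρ) 0 k u y ≤ (K + 1) ^ 2 * ρ ^ 2 - (m u y - a) ^ 2 +
          D * (8 * EV s p A (cG s p m A ρ) 0 k u y - 2 * EV s' p' R' ν' 0 k u (some y) +
            EV s' p' R' 0 (ind E') k u (some y)) := by
      intro k
      induction k with
      | zero =>
        intro u y h
        have hab : |m u y - a| ≤ (K + 1) * ρ := by
          rcases h with h | h
          · have := ((memR u y).1 h.2).2.2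
            linarith
          · exact h.2
        have h2 := hZn 0 u (some y)
        have h3 : (m u y - a) ^ 2 ≤ (K + 1) ^ 2 * ρ ^ 2 := by
          rw [← sq_abs (m u y - a), ← mul_pow]
          exact pow_le_pow_left₀ (abs_nonneg _) hab 2
        have h4 : 0 ≤ D * EV s' p' R' 0 (ind E') 0 u (some y) := mul_nonneg hD0 h2
        rw [EV_zero s p A (cS s p m ρ), EV_zero s p A (cG s p m A ρ), EV_zero s' p' R' ν']
        have h5 : (0 : ℕ → σ → ℝ) u y = 0 := rfl
        have h6 : (0 : ℕ → Option σ → ℝ) u (some y) = 0 := rfl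
        rw [h5, h6]
        linarith
      | succ k ihk =>
        intro u y h
        have hab : |m u y - a| ≤ (K + 1) * ρ := by
          rcases h with h | h
          · have := ((memR u y).1 h.2).2.2
            linarith
          · exact h.2
        have h1 := GExc_N_nonneg s hp m A hρ (k + 1) u y
        have h2 := hZn (k + 1) u (some y)
        have h3 : (m u y - a) ^ 2 ≤ (K + 1) ^ 2 * ρ ^ 2 := by
          rw [← sq_abs (m u y - a), ← mul_pow]
          exact pow_le_pow_left₀ (abs_nonneg _) hab 2
        by_cases hyR : y ∈ R u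
        · have hkn : k < n := by
            rcases h with h | h
            · omega
            · omega
          have hyA := ((memR u y).1 hyR).1
          have hya := ((memR u y).1 hyR).2.2
          have hm := hMg u y hyA
          have hpy := hp u y
          have hyR' := (memR' u y).2 hyR
          have hch := hm.child
          rw [EV_mem s p A (cS s p m ρ) 0 k u y hyA, EV_mem s p A (cG s p m A ρ) 0 k u y hyA,
            EV_mem s' p' R' ν' 0 k u (some y) hyR', EV_mem s' p' R' 0 (ind E') k u (some y) hyR']
          have e3 : (0 : ℕ → Option σ → ℝ) u (some y) = 0 := rfl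
          have ep : p' u (some y) = p u y := rfl
          rw [e3, ep]
          rcases kinds u y hyR with ⟨hsm, hnw⟩ | hw
          · -- small
            have hb : ∀ b, |m (u + 1) (s u y b) - a| ≤ (K + 1) * ρ := by
              intro b
              have e : |m (u + 1) (s u y b) - m u y| ≤ ρ := by
                refine le_trans ?_ hsm
                cases b with
                | false =>
                  rw [hch.1, add_sub_cancel_left, abs_mul]
                  have : |1 - p u y| ≤ 1 := by rw [abs_le]; constructor <;> linarith [hpy.1, hpy.2]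
                  nlinarith [abs_nonneg (al s m u y)]
                | true =>
                  rw [hch.2]
                  have e : m u y - p u y * al s m u y - m u y = -(p u y * al s m u y) := by ring
                  rw [e, abs_neg, abs_mul]
                  have : |p u y| ≤ 1 := by rw [abs_le]; constructor <;> linarith [hpy.1, hpy.2]
                  nlinarith [abs_nonneg (al s m u y)]
              have : |m (u + 1) (s u y b) - a| ≤ |m (u + 1) (s u y b) - m u y| + |m u y - a| := by
                have := abs_add_le (m (u + 1) (s u y b) - m u y) (m u y - a)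
                rwa [sub_add_sub_cancel] at this
              linarith
            have i1 := ihk (u + 1) (s u y false) (Or.inr ⟨hkn, hb false⟩)
            have i2 := ihk (u + 1) (s u y true) (Or.inr ⟨hkn, hb true⟩)
            have i3 := avg_mono hp u y i1 i2
            have hsq := hm.sq a
            have e1 : cS s p m ρ u y = vv p u y * al s m u y ^ 2 := by unfold cS; rw [if_pos hsm]
            obtain ⟨g, hg⟩ : ∃ g, g = cG s p m A ρ u y := ⟨_, rfl⟩
            have hg0 : 0 ≤ D * g := mul_nonneg hD0 (by rw [hg]; exact GExc_cG_nonneg s hp m A hρ u y)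
            have e4 : ν' u (some y) = g := by
              rw [hg]; exact GExc_ν_small s p m A ρ u y hsm
            have e5 : s' u (some y) false = some (s u y false) := GExc_s_small s p m ρ u y false hnw
            have e6 : s' u (some y) true = some (s u y true) := GExc_s_small s p m ρ u y true hnw
            rw [e1, ← hg, e4, e5, e6]
            linarith
          · -- weak
            have e1 : cS s p m ρ u y = 0 := by unfold cS; rw [if_neg (not_le.2 hw.1)]
            have e2 : cG s p m A ρ u y = vv p u y * |al s m u y| / ρ := GExc_cG_large s p m A ρ u y hw.1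
            have e4 : ν' u (some y) = vv p u y * |al s m u y| / ρ := GExc_ν_weak s p m A ρ u y hw
            have nY : EV s' p' R' ν' 0 k (u + 1) none = 0 := EV_not s' p' R' ν' 0 k (u + 1) none (noneR' _)
            have nZ : EV s' p' R' 0 (ind E') k (u + 1) none = 0 := by
              rw [EV_not s' p' R' 0 (ind E') k (u + 1) none (noneR' _)]
              exact ind_not E' (u + 1) none (noneE' _)
            rw [e1, e2, e4]
            by_cases hph : p u y ≤ 1 / 2
            · have hra := GExc_ra1 p u y hph
              have hnum := GExc_num (v := vv p u y) hρ hpy.1 hph rfl hw.1 hw.2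
              have hfy : |m (u + 1) (s u y true) - m u y| = p u y * |al s m u y| := by
                rw [hch.2]
                have e : m u y - p u y * al s m u y - m u y = -(p u y * al s m u y) := by ring
                rw [e, abs_neg, abs_mul, abs_of_nonneg hpy.1]
              have hfa : |m (u + 1) (s u y true) - a| ≤ (K + 1) * ρ := by
                have := abs_add_le (m (u + 1) (s u y true) - m u y) (m u y - a)
                rw [sub_add_sub_cancel] at this
                linarith [hnum.2.2]
              have i1 := ihk (u + 1) (s u y true) (Or.inr ⟨hkn, hfa⟩)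
              have i2 := ih k hkn (u + 1) (s u y false)
              have i3 := avg_mono hp u y i2 i1
              have hF := GExc_fin (a := a) hK hρ hD1 hpy.1 hnum.1 (by rw [hfy]; exact hnum.2.1) hab hfa
              have e5 : s' u (some y) false = none := GExc_s_rare s p m ρ u y false hw hra.symm
              have e6 : s' u (some y) true = some (s u y true) :=
                GExc_s_freq s p m ρ u y true (by rw [hra]; decide)
              rw [e5, e6, nY, nZ]
              linarith
            · have hra := GExc_ra2 p u y hph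
              push Not at hph
              have hnum := GExc_num (v := vv p u y) (π := 1 - p u y) hρ (by linarith [hpy.2])
                (by linarith) (by unfold vv; ring) hw.1 hw.2
              have hfy : |m (u + 1) (s u y false) - m u y| = (1 - p u y) * |al s m u y| := by
                rw [hch.1, add_sub_cancel_left, abs_mul, abs_of_nonneg (by linarith [hpy.2] : 0 ≤ 1 - p u y)]
              have hfa : |m (u + 1) (s u y false) - a| ≤ (K + 1) * ρ := by
                have := abs_add_le (m (u + 1) (s u y false) - m u y) (m u y - a)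
                rw [sub_add_sub_cancel] at this
                linarith [hnum.2.2]
              have i1 := ihk (u + 1) (s u y false) (Or.inr ⟨hkn, hfa⟩)
              have i2 := ih k hkn (u + 1) (s u y true)
              have i3 := avg_mono hp u y i1 i2
              have hF := GExc_fin (a := a) hK hρ hD1 (by linarith [hpy.2] : 0 ≤ 1 - p u y) hnum.1
                (by rw [hfy]; exact hnum.2.1) hab hfa
              have e5 : s' u (some y) true = none := GExc_s_rare s p m ρ u y true hw hra.symm
              have e6 : s' u (some y) false = some (s u y false) :=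
                GExc_s_freq s p m ρ u y false (by rw [hra]; decide)
              rw [e5, e6, nY, nZ]
              linarith
        · have hkn : k + 1 < n := by
            rcases h with h | h
            · exact absurd h.2 hyR
            · exact h.1
          have hyR' : some y ∉ R' u := fun h' => hyR ((memR' u y).1 h')
          have hY0 : EV s' p' R' ν' 0 (k + 1) u (some y) = 0 :=
            EV_not s' p' R' ν' 0 (k + 1) u (some y) hyR'
          rw [hY0]
          by_cases hyA : y ∈ A u
          · by_cases hys : ρ < |al s m u y| ∧ 1 / 4 ≤ vv p u y * |al s m u y| / ρ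
            · have := GExc_L s hp m A ρ D hD0 n ih (k + 1) hkn.le u y hyA hys.1 hys.2
              have h4 : 0 ≤ D * EV s' p' R' 0 (ind E') (k + 1) u (some y) := mul_nonneg hD0 h2
              linarith
            · have hyE : y ∈ E u := by
                rw [memE]
                refine ⟨hyA, hys, ?_⟩
                by_contra hcon
                push Not at hcon
                exact hyR ((memR u y).2 ⟨hyA, hys, hcon⟩)
              rw [EV_not s' p' R' 0 (ind E') (k + 1) u (some y) hyR',
                ind_mem E' u (some y) ((memE' u y).2 hyE)]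
              have := ih (k + 1) hkn u y
              linarith
          · rw [EV_not s p A (cS s p m ρ) 0 (k + 1) u y hyA]
            have h4 : 0 ≤ D * (8 * EV s p A (cG s p m A ρ) 0 (k + 1) u y +
                EV s' p' R' 0 (ind E') (k + 1) u (some y)) :=
              mul_nonneg hD0 (by linarith)
            have h5 : (0 : ℕ → σ → ℝ) u y = 0 := rfl
            rw [h5]
            linarith
    have hfin := key n t x (Or.inl ⟨le_rfl, hxR⟩)
    have hz : m t x - a = 0 := by rw [ha]; ring
    rw [hz] at hfin
    rw [EV_sep s' p' R' ν' (fun u o => 1 - ind E' u o), EV_compl s' p' R' (ind E')] at hpk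
    have h6 := mul_le_mul_of_nonneg_left hpk hD0
    have h7 := mul_nonneg hD0 (hYn n t (some x))
    linarith

end Pool.Agent.MP3145b1.RD
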