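import Pool.Agent.Lib.MP_3145b1_co.RD.Spec

/-!
# MP_3145b1_co, project RD, module GF4: sharp form of the logarithmic variation bound for martingales in `[-1, 1]`
-/

set_option autoImplicit false

namespace Pool.Agent.MP3145b1.RD

open Finset Pool.Agent.MP3145b1 Pool.Agent.MP3145b1.RC

variable {σ : Type}

/-- the expectation of `|m|` at the end is at least `|m|` at the start -/
private theorem GF4_abs (s : ℕ → σ → Bool → σ) {p m : ℕ → σ → ℝ} (hp : Pb p) (A : ℕ → Finset σ)
    (hM : ∀ u, ∀ y ∈ A u, Mg s p m u y) (n t : ℕ) (x : σ) :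
    |m t x| ≤ EV s p A 0 (fun u y => |m u y|) n t x := by
  refine EV_ge s hp A 0 (fun u y => |m u y|) (fun _ u y => |m u y|) (fun _ _ => le_rfl)
    (fun _ _ _ _ => le_rfl) ?_ n t x
  intro n t x hx
  have h := hM t x hx
  have hpx := hp t x
  unfold Mg at h
  have e1 : |p t x * m (t + 1) (s t x false)| = p t x * |m (t + 1) (s t x false)| := by
    rw [abs_mul, abs_of_nonneg hpx.1]
  have e2 : |(1 - p t x) * m (t + 1) (s t x true)| = (1 - p t x) * |m (t + 1) (s t x true)| := by
    rw [abs_mul, abs_of_nonneg (by linarith [hpx.2])]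
  have h3 := abs_add_le (p t x * m (t + 1) (s t x false)) ((1 - p t x) * m (t + 1) (s t x true))
  rw [← h, e1, e2] at h3
  simpa using h3

private theorem GF4_lg_nonneg (a x : ℝ) : 0 ≤ lg a x := le_max_left _ _

private theorem GF4_lg {a x y : ℝ} (ha : 0 ≤ a) (ha1 : a ≤ 1) (h : |y| = |x| / 2) : lg a x ≤ lg 1 y := by
  unfold lg
  have hx := abs_nonneg x
  rcases hx.eq_or_lt with h0 | h0
  · rw [← h0]
    simp
  · rcases ha.eq_or_lt with h1 | h1
    · rw [← h1]
      simp
    · apply max_le_max le_rfl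
      apply Real.log_le_log (div_pos h1 h0)
      rw [h]
      calc a / |x| ≤ 1 / |x| := div_le_div_of_nonneg_right ha1 hx
        _ ≤ 1 / (|x| / 2) := one_div_le_one_div_of_le (by linarith) (by linarith)

/-- the cost `cL` of `m` against the cost of `m'` with half the differences -/
private theorem GF4_cL (s : ℕ → σ → Bool → σ) {p m m' : ℕ → σ → ℝ} (hp : Pb p)
    (u : ℕ) (y : σ) (hm : |m u y| ≤ 1) (h : |al s m' u y| = |al s m u y| / 2) :
    cL s p m u y ≤ 4 * (vv p u y * al s m' u y ^ 2 * (1 + lg 1 (al s m' u y))) := by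
  unfold cL
  have hv := vv_nonneg hp u y
  have h1 : al s m' u y ^ 2 = al s m u y ^ 2 / 4 := by
    rw [← sq_abs, h, div_pow, sq_abs]
    norm_num
  have h2 := GF4_lg (abs_nonneg (m u y)) hm h
  rw [h1]
  have h3 : 0 ≤ vv p u y * al s m u y ^ 2 := mul_nonneg hv (sq_nonneg _)
  have h4 : vv p u y * al s m u y ^ 2 * (1 + lg |m u y| (al s m u y)) ≤
      vv p u y * al s m u y ^ 2 * (1 + lg 1 (al s m' u y)) :=
    mul_le_mul_of_nonneg_left (by linarith) h3
  calc vv p u y * al s m u y ^ 2 * (1 + lg |m u y| (al s m u y)) ≤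
      vv p u y * al s m u y ^ 2 * (1 + lg 1 (al s m' u y)) := h4
    _ = 4 * (vv p u y * (al s m u y ^ 2 / 4) * (1 + lg 1 (al s m' u y))) := by ring

/-- the bound `164 C (1 - |m|)` -/
private theorem GF4_one (h3 : S_GFb) (w : ℕ) (C : ℝ) (hC : 1 ≤ C) (hV : LR w C)
    (s : ℕ → σ → Bool → σ) (p m : ℕ → σ → ℝ) (A : ℕ → Finset σ) (n t : ℕ) (x : σ) (hp : Pb p)
    (hA : ∀ u, (A u).card ≤ w) (hM : ∀ u, ∀ y ∈ A u, Mg s p m u y) (hm : ∀ u y, |m u y| ≤ 1) (τ : ℝ)
    (hτ : τ = 1 ∨ τ = -1) : EV s p A (cL s p m) 0 n t x ≤ 164 * C * (1 - τ * m t x) := by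
  have hM' : ∀ u, ∀ y ∈ A u, Mg s p (fun u y => (1 - τ * m u y) / 2) u y := by
    intro u y hy
    have h := hM u y hy
    unfold Mg at h ⊢
    simp only
    rw [h]
    ring
  have hm' : ∀ u y, 0 ≤ (1 - τ * m u y) / 2 ∧ (1 - τ * m u y) / 2 ≤ 1 := by
    intro u y
    have h := abs_le.1 (hm u y)
    rcases hτ with rfl | rfl
    · constructor <;> linarith [h.1, h.2]
    · constructor <;> linarith [h.1, h.2]
  have hal : ∀ u y, |al s (fun u y => (1 - τ * m u y) / 2) u y| = |al s m u y| / 2 := by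
    intro u y
    have e : al s (fun u y => (1 - τ * m u y) / 2) u y = -τ * al s m u y / 2 := by
      unfold al
      ring
    have e2 : |(-τ)| = 1 := by
      rcases hτ with rfl | rfl
      · norm_num
      · norm_num
    rw [e, abs_div, abs_mul, e2, one_mul]
    norm_num
  have h4 := h3 w C hC hV σ s p (fun u y => (1 - τ * m u y) / 2) A n t x hp hA hM' hm'
  have h5 := EV_mono s hp A (c := cL s p m)
    (c' := fun u y => 4 * (vv p u y * al s (fun u y => (1 - τ * m u y) / 2) u y ^ 2 *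
      (1 + lg 1 (al s (fun u y => (1 - τ * m u y) / 2) u y)))) (q := 0) (q' := 0)
    (fun u y _ => GF4_cL s hp u y (hm u y) (hal u y)) (fun _ _ => le_rfl) n t x
  rw [EV_mul0] at h5
  refine h5.trans ?_
  calc 4 * EV s p A (fun u y => vv p u y * al s (fun u y => (1 - τ * m u y) / 2) u y ^ 2 *
      (1 + lg 1 (al s (fun u y => (1 - τ * m u y) / 2) u y))) 0 n t x
      ≤ 4 * (82 * C * ((1 - τ * m t x) / 2)) := mul_le_mul_of_nonneg_left h4 (by norm_num)
    _ = 164 * C * (1 - τ * m t x) := by ring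

theorem rGF4 (h1 : S_MSq) (h2 : S_GF3) (h3 : S_GFb) : S_GF4 := by
  intro w C hC hV σ s p m A n t x hp hA hM hm
  have hsq := h1 σ s p m A n t x hM
  have hab := GF4_abs s hp A hM n t x
  -- X + en
  have hX : EV s p A 0 (fun u y => |m u y| - m u y ^ 2) n t x =
      EV s p A 0 (fun u y => |m u y|) n t x - EV s p A 0 (fun u y => m u y ^ 2) n t x := by
    have h := EV_padd s p A (fun u y => |m u y|) (fun u y => (-1) * (m u y ^ 2)) n t x
    rw [EV_pmul] at h
    have e : (fun (u : ℕ) (y : σ) => |m u y| + (-1) * (m u y ^ 2)) = fun u y => |m u y| - m u y ^ 2 := by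
      funext u y
      ring
    rw [e] at h
    rw [h]
    ring
  have hX0 : 0 ≤ EV s p A 0 (fun u y => |m u y| - m u y ^ 2) n t x := by
    refine EV_nonneg s hp A (fun _ _ _ => le_rfl) (fun u y => ?_) n t x
    have h := hm u y
    have h0 := abs_nonneg (m u y)
    rw [← sq_abs]
    nlinarith
  have hen : 0 ≤ EV s p A (fun u y => vv p u y * al s m u y ^ 2) 0 n t x :=
    EV_nonneg s hp A (fun u y _ => mul_nonneg (vv_nonneg hp u y) (sq_nonneg _)) (fun _ _ => le_rfl) n t x
  have hsum : |m t x| - m t x ^ 2 ≤ EV s p A 0 (fun u y => |m u y| - m u y ^ 2) n t x +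
      EV s p A (fun u y => vv p u y * al s m u y ^ 2) 0 n t x := by
    rw [hX, hsq]
    linarith
  have hm0 := hm t x
  have hm00 := abs_nonneg (m t x)
  have hsqa : m t x ^ 2 = |m t x| ^ 2 := (sq_abs _).symm
  rcases le_or_gt (1 / 2) |m t x| with hc | hc
  · -- large
    have hP : EV s p A (cL s p m) 0 n t x ≤ 164 * C * (1 - |m t x|) := by
      rcases abs_cases (m t x) with ⟨h, _⟩ | ⟨h, _⟩
      · have h4 := GF4_one h3 w C hC hV s p m A n t x hp hA hM hm 1 (Or.inl rfl)
        rw [h]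
        rwa [one_mul] at h4
      · have h4 := GF4_one h3 w C hC hV s p m A n t x hp hA hM hm (-1) (Or.inr rfl)
        rw [h]
        rwa [neg_one_mul] at h4
    refine hP.trans ?_
    have h8 : 164 * C * (1 - |m t x|) ≤ 328 * C * (|m t x| - m t x ^ 2) := by
      rw [hsqa]
      have e : 328 * C * (|m t x| - |m t x| ^ 2) - 164 * C * (1 - |m t x|) =
          164 * C * ((1 - |m t x|) * (2 * |m t x| - 1)) := by ring
      have h9 : 0 ≤ 164 * C * ((1 - |m t x|) * (2 * |m t x| - 1)) :=
        mul_nonneg (by linarith) (mul_nonneg (by linarith) (by linarith))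
      linarith
    exact h8.trans (mul_le_mul_of_nonneg_left hsum (by linarith))
  · -- small
    have h4 := h2 w C hC hV σ s p m A n t x hp hA hM
    have h5 : EV s p A 0 (fun u y => m u y ^ 2) n t x =
        m t x ^ 2 + EV s p A (fun u y => vv p u y * al s m u y ^ 2) 0 n t x := by
      rw [hsq]
      ring
    have h6 : m t x ^ 2 ≤ |m t x| - m t x ^ 2 := by
      rw [hsqa]
      nlinarith
    refine h4.trans ?_
    rw [h5]
    have h7 : m t x ^ 2 + EV s p A (fun u y => vv p u y * al s m u y ^ 2) 0 n t x ≤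
        2 * (EV s p A 0 (fun u y => |m u y| - m u y ^ 2) n t x +
          EV s p A (fun u y => vv p u y * al s m u y ^ 2) 0 n t x) := by linarith
    have h8 := mul_le_mul_of_nonneg_left h7 (by linarith : (0 : ℝ) ≤ 16 * C)
    refine h8.trans ?_
    have h9 : 0 ≤ C * (EV s p A 0 (fun u y => |m u y| - m u y ^ 2) n t x +
        EV s p A (fun u y => vv p u y * al s m u y ^ 2) 0 n t x) :=
      mul_nonneg (by linarith) (by linarith)
    linarith

end Pool.Agent.MP3145b1.RD
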