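import Pool.Agent.Lib.MP_3145b1_co.RD.Spec

/-!
# MP_3145b1_co, project RD: one state with a partner at distance 2 to 11

The walk starts at a state `y` and at all times there is a state of the region at a distance between
`2` and `11` from the starting value. Then the expected cost (three times the bound `ν` of the drift and
of the energy) plus the payoff is at least `1`.
-/

set_option autoImplicit false

namespace Pool.Agent.MP3145b1.RD

open Finset Pool.Agent.MP3145b1 Pool.Agent.MP3145b1.RC

/-- the average of the squares of the distances from `c` -/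
private theorem GFar_avg (p af at' mm c ν : ℝ) (hd : |mm - c| < 1)
    (h1 : |p * af + (1 - p) * at' - mm| ≤ ν)
    (h2 : p * (af - mm) ^ 2 + (1 - p) * (at' - mm) ^ 2 ≤ ν) :
    1 - (mm - c) ^ 2 ≤ 3 * ν + (p * (1 - (af - c) ^ 2) + (1 - p) * (1 - (at' - c) ^ 2)) := by
  have e : p * (1 - (af - c) ^ 2) + (1 - p) * (1 - (at' - c) ^ 2) =
      1 - (mm - c) ^ 2 - 2 * ((mm - c) * (p * af + (1 - p) * at' - mm)) -
        (p * (af - mm) ^ 2 + (1 - p) * (at' - mm) ^ 2) := by ring
  have hν : 0 ≤ ν := le_trans (abs_nonneg _) h1
  have h3 : |(mm - c) * (p * af + (1 - p) * at' - mm)| ≤ ν := by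
    rw [abs_mul]
    calc |mm - c| * |p * af + (1 - p) * at' - mm| ≤ 1 * ν :=
          mul_le_mul hd.le h1 (abs_nonneg _) zero_le_one
      _ = ν := one_mul ν
  have h4 := (abs_le.1 h3).2
  rw [e]
  linarith

private theorem GFar_sq (x c : ℝ) (h : 1 ≤ |x - c|) : 1 - (x - c) ^ 2 ≤ 0 := by
  have h1 : (1 : ℝ) ^ 2 ≤ |x - c| ^ 2 := pow_le_pow_left₀ zero_le_one h 2
  rw [sq_abs] at h1
  linarith

theorem rGFar : S_GFar := by
  intro σ s p m R E ν q t n y hp hy hR hE hz hq0 hq1 hq2
  have hν : ∀ u, ∀ x ∈ R u, 0 ≤ 3 * ν u x := by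
    intro u x hx
    obtain ⟨a, -, -, h3, -⟩ := hR u x hx
    have := le_trans (abs_nonneg _) h3
    linarith
  have hnn : ∀ k u x, 0 ≤ EV s p R (fun u x => 3 * ν u x) q k u x := fun k u x =>
    EV_nonneg s hp R hν hq0 k u x
  have key : ∀ k u x, k + u = t + n → t ≤ u → x ∈ R u → |m u x - m t y| < 1 →
      1 - (m u x - m t y) ^ 2 ≤ EV s p R (fun u x => 3 * ν u x) q k u x := by
    intro k
    induction k with
    | zero =>
      intro u x hu htu hx hd
      have hu' : u = t + n := by omega
      subst hu'
      rw [EV_zero]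
      have h1 := hq2 x hx hd
      nlinarith [sq_nonneg (m (t + n) x - m t y)]
    | succ k ih =>
      intro u x hu htu hx hd
      obtain ⟨a, -, ha2, ha3, ha4⟩ := hR u x hx
      have hPr : Pr m R 1 u := by
        obtain ⟨z, hzR, hz1, hz2⟩ := hz u htu (by omega)
        refine ⟨x, hx, z, hzR, ?_, ?_⟩
        · have h1 : |m u z - m t y| ≤ |m u x - m u z| + |m u x - m t y| := by
            have h2 : m u z - m t y = -(m u x - m u z) + (m u x - m t y) := by ring
            rw [h2]
            refine (abs_add_le _ _).trans ?_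
            rw [abs_neg]
          linarith
        · have h1 : |m u x - m u z| ≤ |m u x - m t y| + |m u z - m t y| := by
            have h2 : m u x - m u z = (m u x - m t y) + -(m u z - m t y) := by ring
            rw [h2]
            refine (abs_add_le _ _).trans ?_
            rw [abs_neg]
          linarith
      have hen := ha4 hPr
      have hch : ∀ b, 1 - (a b - m t y) ^ 2 ≤
          EV s p R (fun u x => 3 * ν u x) q k (u + 1) (s u x b) := by
        intro b
        by_cases hbR : s u x b ∈ R (u + 1)
        · have hab := ha2 b (Or.inl hbR)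
          rw [hab]
          by_cases hlt : |m (u + 1) (s u x b) - m t y| < 1
          · exact ih (u + 1) (s u x b) (by omega) (by omega) hbR hlt
          · exact le_trans (GFar_sq _ _ (not_lt.1 hlt)) (hnn _ _ _)
        · by_cases hbE : s u x b ∈ E (u + 1)
          · have hab := ha2 b (Or.inr hbE)
            rw [hab]
            exact le_trans (GFar_sq _ _ (hE (u + 1) _ hbE)) (hnn _ _ _)
          · rw [EV_not s p R _ q k (u + 1) _ hbR]
            have h1 := hq1 (u + 1) _ hbR hbE
            nlinarith [sq_nonneg (a b - m t y)]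
      rw [EV_mem s p R _ q k u x hx]
      have h5 := GFar_avg (p u x) (a false) (a true) (m u x) (m t y) (ν u x) hd ha3 hen
      have h6 := avg_mono hp u x (hch false) (hch true)
      show 1 - (m u x - m t y) ^ 2 ≤ 3 * ν u x + _
      linarith
  have h := key n t y (by omega) le_rfl hy (by rw [sub_self, abs_zero]; exact one_pos)
  rw [sub_self] at h
  linarith

end Pool.Agent.MP3145b1.RD
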