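import Pool.Agent.Lib.MP_3145b1_co.RD.Spec

/-!
# MP_3145b1_co, project RD: one side
-/

set_option autoImplicit false

namespace Pool.Agent.MP3145b1.RD

open Finset Pool.Agent.MP3145b1 Pool.Agent.MP3145b1.RC

/-- the states outside of `R` and `E` -/
private def GInP_Kl {σ : Type} (R : ℕ → Finset σ) (E : ℕ → Set σ) : ℕ → Set σ :=
  fun u => {y | y ∉ R u ∧ y ∉ E u}

private theorem GInP_pnn {σ : Type} (E : ℕ → Set σ) (u : ℕ) (y : σ) : 0 ≤ 1 - ind E u y := by
  have := ind_le E u y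
  linarith

private theorem GInP_nu {σ : Type} {s : ℕ → σ → Bool → σ} {p m : ℕ → σ → ℝ} {R : ℕ → Finset σ}
    {E : ℕ → Set σ} {ν : ℕ → σ → ℝ} {u : ℕ} {y : σ} (h : Sg s p m R E ν u y) : 0 ≤ ν u y := by
  obtain ⟨a, _, _, h3, _⟩ := h
  exact le_trans (abs_nonneg _) h3

private theorem GInP_st {σ : Type} {s : ℕ → σ → Bool → σ} {p m : ℕ → σ → ℝ} {R : ℕ → Finset σ}
    {E : ℕ → Set σ} {ν : ℕ → σ → ℝ} {u : ℕ} {y : σ} (h : Sg s p m R E ν u y) :
    St s p m R E (fun u x => 3 * ν u x) u y := by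
  have h0 := GInP_nu h
  obtain ⟨a, h1, h2, h3, _⟩ := h
  refine ⟨a, h1, h2, le_trans h3 ?_⟩
  show ν u y ≤ 3 * ν u y
  linarith

private theorem GInP_kl {σ : Type} (s : ℕ → σ → Bool → σ) {p : ℕ → σ → ℝ} (hp : Pb p)
    (R R' : ℕ → Finset σ) (E : ℕ → Set σ) (ν : ℕ → σ → ℝ) (hν : ∀ u, ∀ y ∈ R u, 0 ≤ ν u y)
    (hR : ∀ u y, y ∈ R' u → y ∈ R u) (n N : ℕ) (hn : n ≤ N) (u : ℕ) (y : σ) :
    EV s p R' ν (ind (GInP_Kl R E)) n u y ≤ EV s p R ν (fun u y => 1 - ind E u y) N u y := by
  have base : ∀ N u y, ind (GInP_Kl R E) u y ≤ EV s p R ν (fun u y => 1 - ind E u y) N u y := by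
    intro N u y
    by_cases h : y ∈ GInP_Kl R E u
    · rw [ind_mem _ _ _ h, EV_not _ _ _ _ _ _ _ _ h.1, ind_not _ _ _ h.2]
      norm_num
    · rw [ind_not _ _ _ h]
      exact EV_nonneg s hp R hν (GInP_pnn E) _ _ _
  induction n generalizing N u y with
  | zero => exact base N u y
  | succ n ih =>
    obtain ⟨N', rfl⟩ : ∃ N', N = N' + 1 := ⟨N - 1, by omega⟩
    by_cases h : y ∈ R' u
    · rw [EV_mem _ _ _ _ _ _ _ _ h, EV_mem _ _ _ _ _ _ _ _ (hR u y h)]
      have := avg_mono hp u y (ih N' (by omega) (u + 1) (s u y false))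
        (ih N' (by omega) (u + 1) (s u y true))
      linarith
    · rw [EV_not _ _ _ _ _ _ _ _ h]
      exact base _ _ _

private theorem GInP_emp {σ : Type} (s : ℕ → σ → Bool → σ) (p : ℕ → σ → ℝ) (R' : ℕ → Finset σ)
    (B : ℕ → Set σ) (hB : ∀ u y, y ∈ B u → y ∈ R' u) (n t : ℕ) (x : σ) (h : ∀ y, y ∉ B (t + n)) :
    EV s p R' 0 (ind B) n t x = 0 := by
  induction n generalizing t x with
  | zero => exact ind_not _ _ _ (h x)
  | succ n ih =>
    by_cases hx : x ∈ R' t
    · have h' : ∀ y, y ∉ B (t + 1 + n) := by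
        intro y
        rw [show t + 1 + n = t + (n + 1) by ring]
        exact h y
      rw [EV_mem _ _ _ _ _ _ _ _ hx, ih (t + 1) _ h', ih (t + 1) _ h']
      simp
    · rw [EV_not _ _ _ _ _ _ _ _ hx]
      exact ind_not _ _ _ (fun h' => hx (hB _ _ h'))

private theorem GInP_mono {σ : Type} (s : ℕ → σ → Bool → σ) {p : ℕ → σ → ℝ} (hp : Pb p)
    (R R' : ℕ → Finset σ) (B : ℕ → Set σ) (ν : ℕ → σ → ℝ) (hν : ∀ u, ∀ y ∈ R u, 0 ≤ ν u y)
    (hR : ∀ u y, y ∈ R' u → y ∈ R u) (hB : ∀ u y, y ∈ R u → y ∉ R' u → y ∉ B u)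
    (n t : ℕ) (x : σ) : EV s p R' 0 (ind B) n t x ≤ EV s p R ν (ind B) n t x := by
  induction n generalizing t x with
  | zero => exact le_rfl
  | succ n ih =>
    by_cases hx : x ∈ R' t
    · rw [EV_mem _ _ _ _ _ _ _ _ hx, EV_mem _ _ _ _ _ _ _ _ (hR _ _ hx)]
      have h1 := avg_mono hp t x (ih (t + 1) (s t x false)) (ih (t + 1) (s t x true))
      have h2 := hν t x (hR _ _ hx)
      have h3 : (0 : ℕ → σ → ℝ) t x = 0 := rfl
      rw [h3]
      linarith
    · rw [EV_not _ _ _ _ _ _ _ _ hx]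
      by_cases hy : x ∈ R t
      · rw [ind_not _ _ _ (hB _ _ hy hx)]
        exact EV_nonneg s hp R hν (ind_nonneg B) _ _ _
      · rw [EV_not _ _ _ _ _ _ _ _ hy]

private theorem GInP_sub {σ : Type} (s : ℕ → σ → Bool → σ) {p : ℕ → σ → ℝ} (hp : Pb p)
    (A : ℕ → Finset σ) (B X Y : ℕ → Set σ) (ν : ℕ → σ → ℝ)
    (h : ∀ u y, y ∈ B u → y ∈ X u ∨ y ∈ Y u) (n t : ℕ) (x : σ) :
    EV s p A ν (ind B) n t x ≤ EV s p A ν (ind X) n t x + EV s p A 0 (ind Y) n t x := by
  rw [← EV_add]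
  apply EV_mono s hp A
  · intro u y _
    simp
  intro u y
  have hX := ind_nonneg X u y
  have hY := ind_nonneg Y u y
  by_cases hy : y ∈ B u
  · rw [ind_mem _ _ _ hy]
    rcases h u y hy with h | h
    · rw [ind_mem _ _ _ h]
      linarith
    · rw [ind_mem _ _ _ h]
      linarith
  · rw [ind_not _ _ _ hy]
    linarith

/-- the payoff `ind B` and the cost `8 ν` against the payoff `1 - ind E` with the cost `ν` -/
private theorem GInP_glue {σ : Type} (s : ℕ → σ → Bool → σ) {p : ℕ → σ → ℝ} (hp : Pb p)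
    (R : ℕ → Finset σ) (E B : ℕ → Set σ) (ν : ℕ → σ → ℝ) (hν : ∀ u, ∀ y ∈ R u, 0 ≤ ν u y)
    (n1 n2 t : ℕ) (x : σ) (hB : ∀ u y, y ∈ B u → y ∈ R u)
    (hF : ∀ y, y ∈ B (t + n1) →
      1 ≤ EV s p R (fun u x => 8 * ν u x) (fun u y => 1 - ind E u y) n2 (t + n1) y) :
    EV s p R (fun u x => 8 * ν u x) (ind B) n1 t x ≤
      8 * EV s p R ν (fun u y => 1 - ind E u y) (n1 + n2) t x := by
  have h8 : ∀ u, ∀ y ∈ R u, 0 ≤ 8 * ν u y := by
    intro u y hy
    have := hν u y hy
    linarith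
  rw [← EV_mul]
  refine le_trans (b := EV s p R (fun u x => 8 * ν u x) (fun u y => 1 - ind E u y) (n1 + n2) t x)
    ?_ ?_
  · apply EV_glue s hp
    · intro u y hy
      rw [ind_not _ _ _ (fun h => hy (hB u y h))]
      exact GInP_pnn E u y
    · intro y
      by_cases h : y ∈ B (t + n1)
      · rw [ind_mem _ _ _ h]
        exact hF y h
      · rw [ind_not _ _ _ h]
        exact EV_nonneg s hp R h8 (GInP_pnn E) _ _ _
  · apply EV_mono s hp R
    · intro u y _
      exact le_rfl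
    · intro u y
      have := GInP_pnn E u y
      linarith

theorem rGInP (h1 : S_GFar) (h2 : S_GRch) (h3 : S_Mea) (h4 : S_Sid) : S_GInP := by
  intro σ s p m R E ν t n1 n2 x hp hx hM hR hE hX hXp
  have hν : ∀ u, ∀ y ∈ R u, 0 ≤ ν u y := fun u y hy => GInP_nu (hM u y hy)
  set a : ℝ := m t x with ha
  set R' : ℕ → Finset σ := Rin m R a 5 with hR'
  set X : ℕ → Set σ := Xt m R E a 5 with hXd
  have mR' : ∀ u y, y ∈ R' u ↔ y ∈ R u ∧ |m u y - a| < 5 := by
    intro u y
    simp only [hR', Rin, Finset.mem_filter]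
  have sub : ∀ u y, y ∈ R' u → y ∈ R u := fun u y h => ((mR' u y).1 h).1
  let Kl : ℕ → Set σ := GInP_Kl R E
  let Bn : ℕ → Set σ := fun u => {y | y ∈ R' u ∧ m u y - a ≤ 1}
  let KB : ℕ → Set σ := fun u => {y | y ∈ Kl u ∨ y ∈ Bn u}
  let ZZ : ℕ → Set σ := fun u => {y | u = t + n1 ∧ y ∈ R u ∧ 3 < m u y - a ∧ m u y - a < 6}
  by_contra hcon
  rw [not_le] at hcon
  -- (1)
  have s1 : ∀ n, n ≤ n1 → EV s p R' ν (ind Kl) n t x < 1 / 448 := by
    intro n hn
    have := GInP_kl s hp R R' E ν hν sub n (n1 + n2) (by omega) t x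
    have e : EV s p R' ν (ind Kl) n t x = EV s p R' ν (ind (GInP_Kl R E)) n t x := rfl
    rw [e]
    linarith
  have s1' : EV s p R ν (ind Kl) n1 t x < 1 / 448 := by
    have := GInP_kl s hp R R E ν hν (fun _ _ h => h) n1 (n1 + n2) (by omega) t x
    have e : EV s p R ν (ind Kl) n1 t x = EV s p R ν (ind (GInP_Kl R E)) n1 t x := rfl
    rw [e]
    linarith
  -- (2)
  have s2 : ∀ n, n ≤ n1 → 1 / 14 - 1 / 448 < EV s p R' 0 (ind Bn) n t x := by
    intro n hn
    have g := h3 1 le_rfl σ s p m R' ν t n x hp (fun u y hy => by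
      obtain ⟨b, hb1, hb2, hb3, _⟩ := hM u y (sub u y hy)
      refine ⟨b, hb1, ?_, hb3⟩
      intro i hi
      rcases hi with hi | hi
      · exact hb2 i (Or.inl (sub _ _ hi))
      · exact absurd hi (Set.notMem_empty _))
      (fun u y hy => by
        have := ((mR' u y).1 hy).2
        linarith)
    have g2 := GInP_sub s hp R' (fun u => {y | y ∉ R' u ∨ m u y - m t x ≤ 1}) KB X ν (by
      intro u y hy
      by_cases hyR' : y ∈ R' u
      · left
        right
        rcases hy with hy | hy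
        · exact absurd hyR' hy
        · exact ⟨hyR', hy⟩
      · by_cases hyR : y ∈ R u
        · right
          refine ⟨Or.inl hyR, ?_⟩
          by_contra h
          rw [not_le] at h
          exact hyR' ((mR' u y).2 ⟨hyR, h⟩)
        · by_cases hyE : y ∈ E u
          · right
            refine ⟨Or.inr hyE, ?_⟩
            have := hE u y hyE
            linarith
          · left
            left
            exact ⟨hyR, hyE⟩) n t x
    have g3 := hX n hn
    have g4 := GInP_sub s hp R' KB Kl Bn ν (fun u y hy => hy) n t x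
    have g5 := s1 n hn
    linarith
  have s3 : ∀ n, n ≤ n1 → ∃ z, z ∈ Bn (t + n) := by
    intro n hn
    by_contra h
    have h' : ∀ y, y ∉ Bn (t + n) := fun y hy => h ⟨y, hy⟩
    have g := GInP_emp s p R' Bn (fun u y hy => hy.1) n t x h'
    have g4 := s2 n hn
    rw [g] at g4
    norm_num at g4
  -- (3)
  have s4 : ∀ y, y ∈ ZZ (t + n1) → ∀ z, z ∈ Bn (t + n1) →
      1 ≤ EV s p R (fun u x => 8 * ν u x) (fun u y => 1 - ind E u y) n2 (t + n1) y ∨
        1 ≤ EV s p R (fun u x => 8 * ν u x) (fun u y => 1 - ind E u y) n2 (t + n1) z := by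
    intro y hy z hz
    have hy1 : 3 < m (t + n1) y - a := hy.2.2.1
    have hy2 : m (t + n1) y - a < 6 := hy.2.2.2
    have hz1 := (mR' _ _).1 hz.1
    have hz2 : m (t + n1) z - a ≤ 1 := hz.2
    have hza := abs_lt.1 hz1.2
    have hd : 0 ≤ m (t + n1) y - m (t + n1) z := by linarith
    apply h2 σ s p m R E ν (t + n1) n2 y z hp hy.2.1 hz1.1 hM
    · intro u x' hx'
      have hx1 := hE u x' hx'
      rcases le_abs.1 hx1 with h | h
      · constructor
        · exact le_trans (by linarith) (le_abs_self _)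
        · exact le_trans (by linarith) (le_abs_self _)
      · constructor
        · exact le_trans (by linarith) (neg_le_abs _)
        · exact le_trans (by linarith) (neg_le_abs _)
    · rw [abs_of_nonneg hd]
      linarith
    · rw [abs_of_nonneg hd]
      linarith
  -- (4)
  let Q : ℕ → Set σ := fun u => {y | (y ∉ R u ∧ y ∉ E u) ∨ y ∈ ZZ u}
  have s5 : 1 / 28 ≤ EV s p R (fun u x => 3 * ν u x) (ind Q) n1 t x := by
    have g := h4 1 1 le_rfl one_pos σ s p m R E (fun u x => 3 * ν u x) (ind Q) t n1 x hp hx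
      (fun u y hy => GInP_st (hM u y hy)) (ind_nonneg Q) (by
      intro k u hku htu y hy hy1 hy2
      apply h1 σ s p m R E ν (ind Q) u k y hp hy hM
      · intro v x' hx'
        have hx1 := hE v x' hx'
        rcases le_abs.1 hx1 with h | h
        · exact le_trans (by linarith) (le_abs_self _)
        · exact le_trans (by linarith) (neg_le_abs _)
      · intro v hv hv'
        obtain ⟨z, hz⟩ := s3 (v - t) (by omega)
        have e : t + (v - t) = v := by omega
        rw [e] at hz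
        have hz1 := (mR' _ _).1 hz.1
        have hza := abs_lt.1 hz1.2
        have hz2 : m v z - a ≤ 1 := hz.2
        refine ⟨z, hz1.1, ?_, ?_⟩
        · exact le_trans (by linarith) (neg_le_abs _)
        · rw [abs_le]
          constructor <;> linarith
      · exact ind_nonneg Q
      · intro v x' hx1 hx2
        rw [ind_mem Q v x' (Or.inl ⟨hx1, hx2⟩)]
      · intro x' hx1 hx2
        have hx3 := abs_lt.1 hx2
        rw [ind_mem Q (u + k) x' (Or.inr ⟨by omega, hx1, by linarith, by linarith⟩)])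
    have e5 : (5 : ℝ) * 1 = 5 := by norm_num
    rw [e5, one_mul] at g
    exact le_trans hXp g
  have s6 : EV s p R (fun u x => 3 * ν u x) (ind Q) n1 t x ≤
      3 * EV s p R ν (ind Kl) n1 t x + EV s p R 0 (ind ZZ) n1 t x := by
    rw [← EV_mul, ← EV_add]
    apply EV_mono s hp R
    · intro u y _
      simp
    · intro u y
      have hK := ind_nonneg Kl u y
      have hZ := ind_nonneg ZZ u y
      by_cases hy : y ∈ Q u
      · rw [ind_mem Q _ _ hy]
        rcases hy with h | h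
        · rw [ind_mem Kl _ _ h]
          linarith
        · rw [ind_mem ZZ _ _ h]
          linarith
      · rw [ind_not Q _ _ hy]
        linarith
  have h8 : ∀ u, ∀ y ∈ R u, 0 ≤ 8 * ν u y := by
    intro u y hy
    have := hν u y hy
    linarith
  by_cases hA : ∀ y, y ∈ ZZ (t + n1) →
      1 ≤ EV s p R (fun u x => 8 * ν u x) (fun u y => 1 - ind E u y) n2 (t + n1) y
  · -- case (A)
    have g1 := GInP_glue s hp R E ZZ ν hν n1 n2 t x (fun u y hy => hy.2.1) hA
    have g2 : EV s p R 0 (ind ZZ) n1 t x ≤ EV s p R (fun u x => 8 * ν u x) (ind ZZ) n1 t x :=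
      EV_mono s hp R h8 (fun _ _ => le_rfl) n1 t x
    linarith
  · -- case (B)
    push Not at hA
    obtain ⟨y, hy, hy'⟩ := hA
    have g1 := GInP_glue s hp R E Bn ν hν n1 n2 t x (fun u y hy => sub u y hy.1) (by
      intro z hz
      rcases s4 y hy z hz with h | h
      · exact absurd h (not_le.2 hy')
      · exact h)
    have g2 := GInP_mono s hp R R' Bn (fun u x => 8 * ν u x) h8 sub
      (fun u y _ hy' h => hy' h.1) n1 t x
    have g3 := s2 n1 le_rfl
    linarith

end Pool.Agent.MP3145b1.RD
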