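import Pool.Agent.Lib.MP_3145b1_co.RD.Spec

/-!
# MP_3145b1_co, project RD: sets with at least two elements
-/

set_option autoImplicit false

namespace Pool.Agent.MP3145b1.RD

open Finset Pool.Agent.MP3145b1 Pool.Agent.MP3145b1.RC

theorem rGLg (h1 : S_GF3) (h2 : S_NMg) (h3 : S_GTc) (h4 : S_NL2) : S_GLg := by
  intro w C hC hV n M s v p o x hp hv hr ho
  rw [← h4 w n M s v p o x hv hr, Finset.mul_sum]
  apply Finset.sum_le_sum
  intro T _
  have hM := h2 w n s v p o T hp ho
  have a1 := h3 w n s v p o x T hp ho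
  have a3 := h1 w C hC hV (Fin w) s (pn v p) (mt s v p o n T) (At v n T) n 0 x
    (pn_Pb hp) hM.2.2 hM.1
  have hw := wt_nonneg hp T
  have a6 : EV s (pn v p) (At v n T) (DT s v p o n T) 0 n 0 x ≤
      112 * C * EV s (pn v p) (At v n T) 0 (fun u y => mt s v p o n T u y ^ 2) n 0 x := by
    have a5 := mul_le_mul_of_nonneg_left a3 (by norm_num : (0 : ℝ) ≤ 7)
    have e : 7 * (16 * C * EV s (pn v p) (At v n T) 0 (fun u y => mt s v p o n T u y ^ 2) n 0 x) =
        112 * C * EV s (pn v p) (At v n T) 0 (fun u y => mt s v p o n T u y ^ 2) n 0 x := by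
      ring
    rw [e] at a5
    linarith
  have a7 := mul_le_mul_of_nonneg_left a6 hw
  linarith

end Pool.Agent.MP3145b1.RD
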