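import Pool.Agent.Lib.MP_3145b1_co.RD.Spec

/-!
# MP_3145b1_co, project RD: one scale
-/

set_option autoImplicit false

namespace Pool.Agent.MP3145b1.RD

open Finset Pool.Agent.MP3145b1 Pool.Agent.MP3145b1.RC

variable {σ : Type}

private theorem GPk_cmp (s : ℕ → σ → Bool → σ) {p : ℕ → σ → ℝ} (hp : Pb p) (m : ℕ → σ → ℝ) (R : ℕ → Finset σ)
    (E : ℕ → Set σ) (a r : ℝ) (hE : ∀ u, ∀ y ∈ E u, r ≤ |m u y - a|) (n u : ℕ) (y : σ) :
    EV s p R 0 (ind E) n u y ≤ EV s p (Rin m R a r) 0 (ind (Xt m R E a r)) n u y := by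
  have h0 : ∀ (u : ℕ) (y : σ), ind E u y ≤ ind (Xt m R E a r) u y := by
    intro u y
    by_cases hy : y ∈ E u
    · rw [ind_mem E u y hy, ind_mem (Xt m R E a r) u y ⟨Or.inr hy, hE u y hy⟩]
    · rw [ind_not E u y hy]
      exact ind_nonneg _ u y
  induction n generalizing u y with
  | zero => exact h0 u y
  | succ n ih =>
    by_cases hy : y ∈ R u
    · by_cases hy' : |m u y - a| < r
      · have hm : y ∈ Rin m R a r u := by
          unfold Rin
          rw [mem_filter]
          exact ⟨hy, hy'⟩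
        rw [EV_mem _ _ _ _ _ _ _ _ hy, EV_mem _ _ _ _ _ _ _ _ hm]
        have := avg_mono hp u y (ih (u + 1) (s u y false)) (ih (u + 1) (s u y true))
        linarith
      · have hm : y ∉ Rin m R a r u := by
          unfold Rin
          rw [mem_filter]
          exact fun h => hy' h.2
        rw [EV_not _ _ (Rin m R a r) _ _ _ _ _ hm, ind_mem (Xt m R E a r) u y ⟨Or.inl hy, not_lt.1 hy'⟩]
        exact EV_ind_le _ hp _ _ _ _ _
    · have hm : y ∉ Rin m R a r u := by
        unfold Rin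
        rw [mem_filter]
        exact fun h => hy h.1
      rw [EV_not _ _ _ _ _ _ _ _ hy, EV_not _ _ _ _ _ _ _ _ hm]
      exact h0 u y

private theorem GPk_abs (b a : ℝ) : |-b - -a| = |b - a| := by
  rw [← abs_neg]
  congr 1
  ring

private theorem GPk_rin (m : ℕ → σ → ℝ) (R : ℕ → Finset σ) (a r : ℝ) :
    Rin (fun u y => -m u y) R (-a) r = Rin m R a r := by
  funext u
  ext y
  unfold Rin
  rw [mem_filter, mem_filter, GPk_abs]

private theorem GPk_xt (m : ℕ → σ → ℝ) (R : ℕ → Finset σ) (E : ℕ → Set σ) (a r : ℝ) :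
    Xt (fun u y => -m u y) R E (-a) r = Xt m R E a r := by
  funext u
  unfold Xt
  ext y
  simp only [Set.mem_setOf_eq, GPk_abs]

private theorem GPk_split (s : ℕ → σ → Bool → σ) {p : ℕ → σ → ℝ} (hp : Pb p) (A : ℕ → Finset σ)
    (m : ℕ → σ → ℝ) (R : ℕ → Finset σ) (E : ℕ → Set σ) (a r : ℝ) (n u : ℕ) (y : σ) :
    EV s p A 0 (ind (Xt m R E a r)) n u y ≤ EV s p A 0 (ind (Xp m R E a r)) n u y +
      EV s p A 0 (ind (Xp (fun u y => -m u y) R E (-a) r)) n u y := by
  rw [← EV_padd]
  apply EV_mono s hp A (fun _ _ _ => le_rfl)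
  intro u y
  by_cases hy : y ∈ Xt m R E a r u
  · rw [ind_mem _ u y hy]
    have h1 := ind_nonneg (Xp m R E a r) u y
    have h2 := ind_nonneg (Xp (fun u y => -m u y) R E (-a) r) u y
    rcases le_or_gt 0 (m u y - a) with h | h
    · have h3 := hy.2
      rw [abs_of_nonneg h] at h3
      rw [ind_mem (Xp m R E a r) u y ⟨hy.1, h3⟩]
      linarith
    · have h3 := hy.2
      rw [abs_of_neg h] at h3
      have h4 : ind (Xp (fun u y => -m u y) R E (-a) r) u y = 1 := by
        apply ind_mem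
        refine ⟨hy.1, ?_⟩
        show r ≤ -m u y - -a
        linarith
      rw [h4]
      linarith
  · rw [ind_not _ u y hy]
    have h1 := ind_nonneg (Xp m R E a r) u y
    have h2 := ind_nonneg (Xp (fun u y => -m u y) R E (-a) r) u y
    linarith

/-- the lower bound by the complement, the drift being nonnegative -/
private theorem GPk_low (s : ℕ → σ → Bool → σ) {p : ℕ → σ → ℝ} (hp : Pb p) (R : ℕ → Finset σ)
    (E : ℕ → Set σ) (ν : ℕ → σ → ℝ) (hν : ∀ u, ∀ y ∈ R u, 0 ≤ ν u y) (n t : ℕ) (x : σ) :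
    1 - EV s p R 0 (ind E) n t x ≤ EV s p R ν (fun u y => 1 - ind E u y) n t x := by
  have h1 := EV_compl s p R (ind E) n t x
  have h2 : EV s p R 0 (fun u y => 1 - ind E u y) n t x ≤
      EV s p R ν (fun u y => 1 - ind E u y) n t x :=
    EV_mono s hp R (fun u y hy => hν u y hy) (fun _ _ => le_rfl) n t x
  rw [h1] at h2
  exact h2

private theorem GPk_pr (m : ℕ → σ → ℝ) (R : ℕ → Finset σ) (ρ : ℝ) (u : ℕ)
    (h : Pr (fun u y => -m u y) R ρ u) : Pr m R ρ u := by
  obtain ⟨y, hy, z, hz, h1, h2⟩ := h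
  have e : |-m u y - -m u z| = |m u y - m u z| := GPk_abs _ _
  refine ⟨y, hy, z, hz, ?_, ?_⟩
  · rw [← e]
    exact h1
  · rw [← e]
    exact h2

theorem rGPk (h1 : S_GInP) : S_GPk := by
  classical
  intro σ s p m R E ν t n x hp hx hM hR hE
  have hν : ∀ u, ∀ y ∈ R u, 0 ≤ ν u y := fun u y hy => by
    obtain ⟨a, g1, g2, g3, g4⟩ := hM u y hy
    exact (abs_nonneg _).trans g3
  have hE5 : ∀ u, ∀ y ∈ E u, 5 ≤ |m u y - m t x| := fun u y hy => by
    have := hE u y hy
    linarith
  have hcmp := GPk_cmp s hp m R E (m t x) 5 hE5 n t x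
  have hlow := GPk_low s hp R E ν hν n t x
  by_cases hn : EV s p (Rin m R (m t x) 5) 0 (ind (Xt m R E (m t x) 5)) n t x < 1 / 14
  · linarith
  · have hex : ∃ k, ¬ EV s p (Rin m R (m t x) 5) 0 (ind (Xt m R E (m t x) 5)) k t x < 1 / 14 := ⟨n, hn⟩
    have hk := Nat.find_spec hex
    have hmin := fun j (hj : j < Nat.find hex) => Nat.find_min hex hj
    have hle : Nat.find hex ≤ n := Nat.find_min' hex hn
    generalize Nat.find hex = k at hk hmin hle
    have hk0 : k ≠ 0 := by
      rintro rfl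
      apply hk
      rw [EV_zero, ind_not]
      · norm_num
      · intro h
        have h2 := h.2
        rw [sub_self, abs_zero] at h2
        linarith
    obtain ⟨n1, rfl⟩ := Nat.exists_eq_succ_of_ne_zero hk0
    obtain ⟨n2, rfl⟩ : ∃ n2, n = n1 + n2 := ⟨n - n1, by omega⟩
    have hlt : ∀ j, j ≤ n1 → EV s p (Rin m R (m t x) 5) 0 (ind (Xt m R E (m t x) 5)) j t x < 1 / 14 := by
      intro j hj
      exact not_not.1 (hmin j (Nat.lt_succ_of_le hj))
    rw [not_lt] at hk
    have hsp := GPk_split s hp (Rin m R (m t x) 5) m R E (m t x) 5 (n1 + 1) t x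
    have hk' : 1 / 14 ≤ EV s p (Rin m R (m t x) 5) 0 (ind (Xt m R E (m t x) 5)) (n1 + 1) t x := hk
    rcases le_or_gt (1 / 28) (EV s p (Rin m R (m t x) 5) 0 (ind (Xp m R E (m t x) 5)) (n1 + 1) t x) with hpp | hpp
    · exact h1 σ s p m R E ν t n1 n2 x hp hx hM hR hE hlt hpp
    · have hq : 1 / 28 ≤ EV s p (Rin m R (m t x) 5) 0
          (ind (Xp (fun u y => -m u y) R E (-m t x) 5)) (n1 + 1) t x := by linarith
      have key := h1 σ s p (fun u y => -m u y) R E ν t n1 n2 x hp hx
      refine key ?_ ?_ ?_ ?_ ?_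
      · intro u y hy
        obtain ⟨a, g1, g2, g3, g4⟩ := hM u y hy
        refine ⟨fun b => -a b, fun b => ?_, fun b hb => ?_, ?_, fun hpr => ?_⟩
        · show |-a b - -m u y| ≤ 1
          rw [GPk_abs]
          exact g1 b
        · show -a b = -m (u + 1) (s u y b)
          rw [g2 b hb]
        · show |p u y * -a false + (1 - p u y) * -a true - -m u y| ≤ ν u y
          have e : p u y * -a false + (1 - p u y) * -a true - -m u y =
              -(p u y * a false + (1 - p u y) * a true - m u y) := by ring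
          rw [e, abs_neg]
          exact g3
        · show p u y * (-a false - -m u y) ^ 2 + (1 - p u y) * (-a true - -m u y) ^ 2 ≤ ν u y
          have e : p u y * (-a false - -m u y) ^ 2 + (1 - p u y) * (-a true - -m u y) ^ 2 =
              p u y * (a false - m u y) ^ 2 + (1 - p u y) * (a true - m u y) ^ 2 := by ring
          rw [e]
          exact g4 (GPk_pr m R 1 u hpr)
      · intro u y hy
        show |-m u y - -m t x| < 7
        rw [GPk_abs]
        exact hR u y hy
      · intro u y hy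
        show 7 ≤ |-m u y - -m t x|
        rw [GPk_abs]
        exact hE u y hy
      · intro j hj
        show EV s p (Rin (fun u y => -m u y) R (-m t x) 5) 0
          (ind (Xt (fun u y => -m u y) R E (-m t x) 5)) j t x < 1 / 14
        rw [GPk_rin, GPk_xt]
        exact hlt j hj
      · show 1 / 28 ≤ EV s p (Rin (fun u y => -m u y) R (-m t x) 5) 0
          (ind (Xp (fun u y => -m u y) R E (-m t x) 5)) (n1 + 1) t x
        rw [GPk_rin]
        exact hq

end Pool.Agent.MP3145b1.RD
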