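import Pool.Agent.Lib.MP_3145b1_co.RD.Spec

/-!
# MP_3145b1_co, project RD: pointwise inequalities
-/

set_option autoImplicit false

namespace Pool.Agent.MP3145b1.RD

open Finset Pool.Agent.MP3145b1 Pool.Agent.MP3145b1.RC

private theorem GPt_xlog (x : ℝ) (h0 : 0 ≤ x) (h1 : x ≤ 1) :
    x ^ 2 * max 0 (Real.log (1 / x)) ≤ x := by
  rcases h0.eq_or_lt with h | h
  · rw [← h]; simp
  · have h2 : Real.log (1 / x) ≤ 1 / x - 1 := Real.log_le_sub_one_of_pos (by positivity)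
    have h3 : max 0 (Real.log (1 / x)) ≤ 1 / x := by
      refine max_le (by positivity) (by linarith)
    calc x ^ 2 * max 0 (Real.log (1 / x)) ≤ x ^ 2 * (1 / x) :=
          mul_le_mul_of_nonneg_left h3 (by positivity)
      _ = x := by field_simp

private theorem GPt_one (N0 : ℕ) (x : ℝ) (h0 : 0 ≤ x) (h1 : x ≤ 1) :
    x ^ 2 * max 0 (Real.log (1 / x)) ≤
      ∑ k ∈ range (N0 + 1), (if x ≤ (1 / 2) ^ k then x ^ 2 else 0) + (1 / 2) ^ N0 := by
  have hnn : ∀ k, 0 ≤ (if x ≤ (1 / 2 : ℝ) ^ k then x ^ 2 else 0) := by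
    intro k
    split_ifs
    · positivity
    · exact le_rfl
  by_cases hx : x ≤ (1 / 2 : ℝ) ^ N0
  · have h2 := GPt_xlog x h0 h1
    have h3 : 0 ≤ ∑ k ∈ range (N0 + 1), (if x ≤ (1 / 2 : ℝ) ^ k then x ^ 2 else 0) :=
      Finset.sum_nonneg fun k _ => hnn k
    linarith
  · push Not at hx
    have hex : ∃ k, (1 / 2 : ℝ) ^ k < x := ⟨N0, hx⟩
    classical
    obtain ⟨κ, hκ, hmin⟩ : ∃ κ, (1 / 2 : ℝ) ^ κ < x ∧ ∀ k, k < κ → x ≤ (1 / 2 : ℝ) ^ k :=
      ⟨Nat.find hex, Nat.find_spec hex, fun k hk => not_lt.1 (Nat.find_min hex hk)⟩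
    have hκN : κ ≤ N0 := by
      by_contra hcon
      push Not at hcon
      exact absurd (hmin N0 hcon) (not_le.2 hx)
    have hxp : 0 < x := lt_trans (by positivity) hκ
    have hsum : (κ : ℝ) * x ^ 2 ≤
        ∑ k ∈ range (N0 + 1), (if x ≤ (1 / 2 : ℝ) ^ k then x ^ 2 else 0) := by
      have hsub : range κ ⊆ range (N0 + 1) := by
        intro k hk
        rw [Finset.mem_range] at hk ⊢
        omega
      calc (κ : ℝ) * x ^ 2 = ∑ _k ∈ range κ, x ^ 2 := by
            rw [Finset.sum_const, Finset.card_range, nsmul_eq_mul]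
        _ = ∑ k ∈ range κ, (if x ≤ (1 / 2 : ℝ) ^ k then x ^ 2 else 0) := by
            refine Finset.sum_congr rfl fun k hk => ?_
            rw [if_pos (hmin k (Finset.mem_range.1 hk))]
        _ ≤ _ := Finset.sum_le_sum_of_subset_of_nonneg hsub fun k _ _ => hnn k
    have hlog : Real.log (1 / x) ≤ κ := by
      have h5 : 1 / x ≤ 2 ^ κ := by
        rw [div_le_iff₀ hxp]
        have h6 : (2 : ℝ) ^ κ * (1 / 2 : ℝ) ^ κ = 1 := by
          rw [← mul_pow]; norm_num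
        have h7 : (0 : ℝ) < 2 ^ κ := by positivity
        nlinarith [mul_lt_mul_of_pos_left hκ h7]
      have h8 : Real.log (1 / x) ≤ Real.log (2 ^ κ) := Real.log_le_log (by positivity) h5
      rw [Real.log_pow] at h8
      have h9 : Real.log 2 ≤ 1 := by
        have := Real.log_two_lt_d9
        linarith
      have h10 : (0 : ℝ) ≤ κ := Nat.cast_nonneg κ
      nlinarith
    have hmax : max 0 (Real.log (1 / x)) ≤ κ := max_le (Nat.cast_nonneg κ) hlog
    have h11 : x ^ 2 * max 0 (Real.log (1 / x)) ≤ x ^ 2 * κ :=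
      mul_le_mul_of_nonneg_left hmax (by positivity)
    have h12 : (0 : ℝ) ≤ (1 / 2) ^ N0 := by positivity
    linarith

private theorem GPt_two (x : ℝ) (N : ℕ) :
    ∑ k ∈ range N, (if x ≤ (1 / 2 : ℝ) ^ k then 0 else (1 / 2 : ℝ) ^ k) ≤
      max 0 (2 * x - 2 * (1 / 2) ^ N) := by
  induction N with
  | zero => simp
  | succ N ih =>
    rw [Finset.sum_range_succ]
    have hp : (1 / 2 : ℝ) ^ (N + 1) = (1 / 2) ^ N * (1 / 2) := pow_succ _ _
    by_cases hx : x ≤ (1 / 2 : ℝ) ^ N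
    · rw [if_pos hx, add_zero]
      have h1 : max 0 (2 * x - 2 * (1 / 2 : ℝ) ^ N) = 0 := max_eq_left (by linarith)
      rw [h1] at ih
      exact ih.trans (le_max_left _ _)
    · rw [if_neg hx]
      push Not at hx
      have h1 : max 0 (2 * x - 2 * (1 / 2 : ℝ) ^ N) = 2 * x - 2 * (1 / 2) ^ N :=
        max_eq_right (by linarith)
      rw [h1] at ih
      refine le_trans ?_ (le_max_right _ _)
      rw [hp]
      linarith

private theorem GPt_geo (x : ℝ) (N : ℕ) :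
    ∑ k ∈ range N, (if x ≤ (1 / 2 : ℝ) ^ k then 0 else (1 / 2 : ℝ) ^ k) ≤
      2 - 2 * (1 / 2) ^ N := by
  induction N with
  | zero => simp
  | succ N ih =>
    rw [Finset.sum_range_succ]
    have hp : (1 / 2 : ℝ) ^ (N + 1) = (1 / 2) ^ N * (1 / 2) := pow_succ _ _
    have h0 : (0 : ℝ) < (1 / 2) ^ N := by positivity
    have h1 : (if x ≤ (1 / 2 : ℝ) ^ N then 0 else (1 / 2 : ℝ) ^ N) ≤ (1 / 2) ^ N := by
      split_ifs
      · exact h0.le
      · exact le_rfl
    rw [hp]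
    linarith

theorem rGPt : S_GPt := by
  intro N0
  refine ⟨fun x h0 h1 => GPt_one N0 x h0 h1, fun x h0 => ?_, ?_⟩
  · have he : ∑ k ∈ range (N0 + 1), (1 / 2 : ℝ) ^ k * (if x ≤ (1 / 2) ^ k then 0 else x) =
        x * ∑ k ∈ range (N0 + 1), (if x ≤ (1 / 2 : ℝ) ^ k then 0 else (1 / 2 : ℝ) ^ k) := by
      rw [Finset.mul_sum]
      refine Finset.sum_congr rfl fun k _ => ?_
      split_ifs
      · simp
      · ring
    rw [he]
    by_cases hx : x ≤ 1
    · rw [if_pos hx]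
      have h1 := GPt_two x (N0 + 1)
      have h2 : max 0 (2 * x - 2 * (1 / 2 : ℝ) ^ (N0 + 1)) ≤ 2 * x := by
        refine max_le (by linarith) ?_
        have : (0 : ℝ) ≤ (1 / 2) ^ (N0 + 1) := by positivity
        linarith
      calc x * ∑ k ∈ range (N0 + 1), (if x ≤ (1 / 2 : ℝ) ^ k then 0 else (1 / 2 : ℝ) ^ k)
          ≤ x * (2 * x) := mul_le_mul_of_nonneg_left (h1.trans h2) h0
        _ = 2 * x ^ 2 := by ring
    · rw [if_neg hx]
      have h1 := GPt_geo x (N0 + 1)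
      have h2 : (0 : ℝ) ≤ (1 / 2) ^ (N0 + 1) := by positivity
      calc x * ∑ k ∈ range (N0 + 1), (if x ≤ (1 / 2 : ℝ) ^ k then 0 else (1 / 2 : ℝ) ^ k)
          ≤ x * 2 := mul_le_mul_of_nonneg_left (by linarith) h0
        _ = 2 * x := by ring
  · have h : ∀ N : ℕ, ∑ k ∈ range N, ((1 : ℝ) / 4) ^ k ≤ 4 / 3 - 4 / 3 * (1 / 4) ^ N := by
      intro N
      induction N with
      | zero => simp
      | succ N ih =>
        rw [Finset.sum_range_succ, pow_succ]
        linarith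
    have h2 : (0 : ℝ) ≤ (1 / 4) ^ (N0 + 1) := by positivity
    linarith [h (N0 + 1)]

end Pool.Agent.MP3145b1.RD
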