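import Pool.Agent.Lib.MP_3145b1_co.RD.Spec

/-!
# MP_3145b1_co, project RD: two separated states (`S_GRch`)
-/

set_option autoImplicit false

namespace Pool.Agent.MP3145b1.RD

open Finset Pool.Agent.MP3145b1 Pool.Agent.MP3145b1.RC

/-- `x` at time `u` is reached from `a` at time `t` through states of `R` with value at distance less
than `1 / 2` from `m t a`. -/
private inductive GRch_Re {σ : Type} (s : ℕ → σ → Bool → σ) (m : ℕ → σ → ℝ) (R : ℕ → Finset σ)
    (t : ℕ) (a : σ) : ℕ → σ → Prop
  | base : GRch_Re s m R t a t a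
  | step (u : ℕ) (x : σ) (b : Bool) : GRch_Re s m R t a u x → s u x b ∈ R (u + 1) →
      |m (u + 1) (s u x b) - m t a| < 1 / 2 → GRch_Re s m R t a (u + 1) (s u x b)

private theorem GRch_le {σ : Type} {s : ℕ → σ → Bool → σ} {m : ℕ → σ → ℝ} {R : ℕ → Finset σ}
    {t : ℕ} {a : σ} {u : ℕ} {x : σ} (h : GRch_Re s m R t a u x) : t ≤ u := by
  induction h with
  | base => exact le_rfl
  | step u x b _ _ _ ih => omega

private theorem GRch_lt {σ : Type} {s : ℕ → σ → Bool → σ} {m : ℕ → σ → ℝ} {R : ℕ → Finset σ}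
    {t : ℕ} {a : σ} {u : ℕ} {x : σ} (h : GRch_Re s m R t a u x) :
    |m u x - m t a| < 1 / 2 := by
  cases h with
  | base =>
    rw [sub_self, abs_zero]
    norm_num
  | step u x b _ _ h3 => exact h3

private theorem GRch_R {σ : Type} {s : ℕ → σ → Bool → σ} {m : ℕ → σ → ℝ} {R : ℕ → Finset σ}
    {t : ℕ} {a : σ} (ha : a ∈ R t) {u : ℕ} {x : σ} (h : GRch_Re s m R t a u x) : x ∈ R u := by
  cases h with
  | base => exact ha
  | step u x b _ h2 _ => exact h2

private theorem GRch_anc {σ : Type} {s : ℕ → σ → Bool → σ} {m : ℕ → σ → ℝ} {R : ℕ → Finset σ}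
    {t : ℕ} {a : σ} {v : ℕ} {x : σ} (h : GRch_Re s m R t a v x) :
    ∀ u, t ≤ u → u ≤ v → ∃ x', GRch_Re s m R t a u x' := by
  induction h with
  | base =>
    intro u h1 h2
    obtain rfl : u = t := le_antisymm h2 h1
    exact ⟨a, GRch_Re.base⟩
  | step v x b h1 h2 h3 ih =>
    intro u hu hv
    rcases Nat.lt_or_ge v u with h | h
    · obtain rfl : u = v + 1 := by omega
      exact ⟨_, GRch_Re.step v x b h1 h2 h3⟩
    · exact ih u hu h

/-- the average of a parabola -/
private theorem GRch_avg (p m c af at' ν : ℝ) (hc : |m - c| < 1 / 2)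
    (h1 : |p * af + (1 - p) * at' - m| ≤ ν)
    (h2 : p * (af - m) ^ 2 + (1 - p) * (at' - m) ^ 2 ≤ ν) :
    1 - 4 * (m - c) ^ 2 ≤ 8 * ν + (p * (1 - 4 * (af - c) ^ 2) + (1 - p) * (1 - 4 * (at' - c) ^ 2)) := by
  have h3 : |(m - c) * (p * af + (1 - p) * at' - m)| ≤ 1 / 2 * ν := by
    rw [abs_mul]
    exact mul_le_mul hc.le h1 (abs_nonneg _) (by norm_num)
  have h4 := (abs_le.1 h3).2
  have h5 : p * (1 - 4 * (af - c) ^ 2) + (1 - p) * (1 - 4 * (at' - c) ^ 2) =
      1 - 4 * (m - c) ^ 2 - 4 * (p * (af - m) ^ 2 + (1 - p) * (at' - m) ^ 2) -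
        8 * ((m - c) * (p * af + (1 - p) * at' - m)) := by ring
  rw [h5]
  linarith

/-- at distance at least `1 / 2` the parabola is not positive -/
private theorem GRch_far (x c : ℝ) (h : 1 / 2 ≤ |x - c|) : 1 - 4 * (x - c) ^ 2 ≤ 0 := by
  have h1 : (1 / 2 : ℝ) ^ 2 ≤ |x - c| ^ 2 := pow_le_pow_left₀ (by norm_num) h 2
  rw [sq_abs] at h1
  linarith

/-- one of the two states, if the other one has descendants as long as it has -/
private theorem GRch_one (σ : Type) (s : ℕ → σ → Bool → σ) (p : ℕ → σ → ℝ) (m : ℕ → σ → ℝ)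
    (R : ℕ → Finset σ) (E : ℕ → Set σ) (ν : ℕ → σ → ℝ) (t n : ℕ) (y z : σ) (hp : Pb p)
    (hy : y ∈ R t) (hz : z ∈ R t) (hS : ∀ u, ∀ x ∈ R u, Sg s p m R E ν u x)
    (hE : ∀ u, ∀ x ∈ E u, 1 / 2 ≤ |m u x - m t y|)
    (h1 : 2 ≤ |m t y - m t z|) (h2 : |m t y - m t z| ≤ 11)
    (hyz : ∀ u x, GRch_Re s m R t y u x → ∃ x', GRch_Re s m R t z u x') :
    1 ≤ EV s p R (fun u x => 8 * ν u x) (fun u x => 1 - ind E u x) n t y := by
  have hν : ∀ u, ∀ x ∈ R u, 0 ≤ 8 * ν u x := by
    intro u x hx
    obtain ⟨a, -, -, h3, -⟩ := hS u x hx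
    have h4 := (abs_nonneg _).trans h3
    linarith
  have hq : ∀ u x, 0 ≤ 1 - ind E u x := by
    intro u x
    have := ind_le E u x
    linarith
  have claim : ∀ k u x, GRch_Re s m R t y u x →
      1 - 4 * (m u x - m t y) ^ 2 ≤
        EV s p R (fun u x => 8 * ν u x) (fun u x => 1 - ind E u x) k u x := by
    intro k
    induction k with
    | zero =>
      intro u x hx
      have hxE : x ∉ E u := by
        intro h
        have h3 := hE u x h
        have h4 := GRch_lt hx
        linarith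
      change 1 - 4 * (m u x - m t y) ^ 2 ≤ 1 - ind E u x
      rw [ind_not _ _ _ hxE]
      have := sq_nonneg (m u x - m t y)
      linarith
    | succ k ih =>
      intro u x hx
      have hxR := GRch_R hy hx
      obtain ⟨z', hz'⟩ := hyz u x hx
      have hzR := GRch_R hz hz'
      have hPr : Pr m R 1 u := by
        refine ⟨x, hxR, z', hzR, ?_⟩
        have h3 := abs_lt.1 (GRch_lt hx)
        have h4 := abs_lt.1 (GRch_lt hz')
        rcases le_total 0 (m t y - m t z) with h5 | h5
        · rw [abs_of_nonneg h5] at h1 h2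
          rw [abs_of_nonneg (by linarith)]
          constructor
          · linarith
          · linarith
        · rw [abs_of_nonpos h5] at h1 h2
          rw [abs_of_nonpos (by linarith)]
          constructor
          · linarith
          · linarith
      obtain ⟨a, -, hab, hdr, hen⟩ := hS u x hxR
      have child : ∀ b, 1 - 4 * (a b - m t y) ^ 2 ≤
          EV s p R (fun u x => 8 * ν u x) (fun u x => 1 - ind E u x) k (u + 1) (s u x b) := by
        intro b
        by_cases h3 : s u x b ∈ R (u + 1)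
        · rw [hab b (Or.inl h3)]
          by_cases h4 : |m (u + 1) (s u x b) - m t y| < 1 / 2
          · exact ih (u + 1) _ (GRch_Re.step u x b hx h3 h4)
          · exact (GRch_far _ _ (not_lt.1 h4)).trans
              (EV_nonneg s hp R hν hq k (u + 1) _)
        · rw [EV_not s p R _ _ k (u + 1) _ h3]
          by_cases h4 : s u x b ∈ E (u + 1)
          · rw [hab b (Or.inr h4)]
            exact (GRch_far _ _ (hE _ _ h4)).trans (hq _ _)
          · rw [ind_not _ _ _ h4]
            have := sq_nonneg (a b - m t y)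
            linarith
      rw [EV_mem _ _ _ _ _ _ _ _ hxR]
      have h5 := avg_mono hp u x (child false) (child true)
      have h6 := GRch_avg (p u x) (m u x) (m t y) (a false) (a true) (ν u x) (GRch_lt hx) hdr
        (hen hPr)
      linarith
  have h3 := claim n t y GRch_Re.base
  rw [sub_self] at h3
  linarith

/-- **GRch** -/
theorem rGRch : S_GRch := by
  intro σ s p m R E ν t n y z hp hy hz hS hE h1 h2
  by_cases h : ∀ u x, GRch_Re s m R t y u x → ∃ x', GRch_Re s m R t z u x'
  · left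
    exact GRch_one σ s p m R E ν t n y z hp hy hz hS (fun u x hx => (hE u x hx).1) h1 h2 h
  · right
    push Not at h
    obtain ⟨u0, x0, hx0, hno⟩ := h
    refine GRch_one σ s p m R E ν t n z y hp hz hy hS (fun u x hx => (hE u x hx).2)
      (by rw [abs_sub_comm]; exact h1) (by rw [abs_sub_comm]; exact h2) fun u x hx => ?_
    have hu : u ≤ u0 := by
      by_contra hcon
      obtain ⟨x', hx'⟩ := GRch_anc hx u0 (GRch_le hx0) (by omega)
      exact hno x' hx'
    exact GRch_anc hx0 u (GRch_le hx) hu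

end Pool.Agent.MP3145b1.RD
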