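import Pool.Agent.Lib.MP_3145b1_co.RD.Spec

/-!
# MP_3145b1_co, project RD: entropy of the singletons
-/

set_option autoImplicit false

namespace Pool.Agent.MP3145b1.RD

open Finset Pool.Agent.MP3145b1 Pool.Agent.MP3145b1.RC

theorem rGSg (h1 : S_GF4) (h2 : S_NMg) (h3 : S_GTc) (h4 : S_NSx) (h5 : S_NSe) : S_GSg := by
  intro w C hC hL n M s v p o x hp hv ho hJ
  have hX := h4 w n M s v p o x hp hv ho hJ
  have hE := h5 w n M s v p o x hp hv
  have hP : Pb (pn v p) := pn_Pb hp
  have hcf : 0 ≤ 2296 * C := by linarith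
  have key : ∀ j ∈ range M, wt p {j} * EV s (pn v p) (At v n {j}) (DT s v p o n {j}) 0 n 0 x ≤
      2296 * C * (wt p {j} * EV s (pn v p) (At v n {j}) 0
        (fun u y => |mt s v p o n {j} u y| - mt s v p o n {j} u y ^ 2) n 0 x +
      wt p {j} * EV s (pn v p) (At v n {j})
        (fun u y => vv (pn v p) u y * al s (mt s v p o n {j}) u y ^ 2) 0 n 0 x) := by
    intro j _
    have hM := h2 w n s v p o {j} hp ho
    have a1 := h3 w n s v p o x {j} hp ho
    have a2 := h1 w C hC hL (Fin w) s (pn v p) (mt s v p o n {j}) (At v n {j}) n 0 x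
      hP hM.2.2 hM.1 hM.2.1
    have hw := wt_nonneg hp {j}
    generalize EV s (pn v p) (At v n {j}) 0
        (fun u y => |mt s v p o n {j} u y| - mt s v p o n {j} u y ^ 2) n 0 x = X at *
    generalize EV s (pn v p) (At v n {j})
        (fun u y => vv (pn v p) u y * al s (mt s v p o n {j}) u y ^ 2) 0 n 0 x = E at *
    have a6 : EV s (pn v p) (At v n {j}) (DT s v p o n {j}) 0 n 0 x ≤
        2296 * C * (X + E) := by
      linarith
    have a7 := mul_le_mul_of_nonneg_left a6 hw
    linarith
  refine (Finset.sum_le_sum key).trans ?_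
  rw [← Finset.mul_sum, Finset.sum_add_distrib]
  apply mul_le_mul_of_nonneg_left _ hcf
  linarith

end Pool.Agent.MP3145b1.RD
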