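import Pool.Agent.Lib.MP_3145b1_co.RD.Spec

/-!
# MP_3145b1_co, project RD: the two-point inequality along the walk
-/

set_option autoImplicit false

namespace Pool.Agent.MP3145b1.RD

open Finset Pool.Agent.MP3145b1 Pool.Agent.MP3145b1.RC

private theorem GTc_mem {w : ℕ} {v : ℕ → Fin w → ℕ} {n : ℕ} {T : Finset ℕ} {u : ℕ} {y : Fin w}
    (hy : y ∈ At v n T u) : v u y ∉ T := by
  unfold At at hy
  split_ifs at hy with h
  · exact (Finset.mem_filter.mp hy).2
  · exact absurd hy (Finset.notMem_empty y)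

theorem rGTc (h1 : S_GTw) (h2 : S_NMg) : S_GTc := by
  intro w n s v p o x T hp ho
  have hM := h2 w n s v p o T hp ho
  rw [← EV_mul0]
  refine EV_mono s (pn_Pb hp) _ ?_ (fun _ _ => le_rfl) n 0 x
  intro u y hy
  have e : mt s v p o n T u y =
      p (v u y) * Cf s v p o T (n - (u + 1)) (u + 1) (s u y false) +
        (1 - p (v u y)) * Cf s v p o T (n - (u + 1)) (u + 1) (s u y true) := hM.1 u y hy
  have h := h1 (p (v u y)) (Cf s v p o T (n - (u + 1)) (u + 1) (s u y false))
    (Cf s v p o T (n - (u + 1)) (u + 1) (s u y true)) (hp _).1 (hp _).2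
  have e2 : DT s v p o n T u y = dlp (p (v u y))
      (Cf s v p o T (n - (u + 1)) (u + 1) (s u y false))
      (Cf s v p o T (n - (u + 1)) (u + 1) (s u y true)) := by
    unfold DT
    rw [if_neg (GTc_mem hy)]
  rw [← e] at h
  rw [e2]
  exact h

end Pool.Agent.MP3145b1.RD
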