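import Pool.Agent.Lib.MP_3145b1_co.RD.Spec

/-!
# MP_3145b1_co, project RD, module GTw: two-point inequality with a biased coin
-/

set_option autoImplicit false

namespace Pool.Agent.MP3145b1.RD

open Finset Pool.Agent.MP3145b1 Pool.Agent.MP3145b1.RC

private theorem GTw_hh (x : ℝ) : hh (x ^ 2) = -(2 * x ^ 2 * Real.log |x|) := by
  unfold hh Real.negMulLog
  rw [Real.log_pow, ← Real.log_abs]
  push_cast
  ring

private theorem GTw_log4 : Real.log 4 ≤ 3 / 2 := by
  have h : (4 : ℝ) = 2 ^ 2 := by norm_num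
  rw [h, Real.log_pow]
  have := Real.log_two_lt_d9
  push_cast
  linarith

/-- `log (2 + 2 r) ≤ 3/2 + max 0 (log r)` -/
private theorem GTw_log {r : ℝ} (hr : 0 ≤ r) :
    Real.log (2 + 2 * r) ≤ 3 / 2 + max 0 (Real.log r) := by
  rcases lt_or_ge r 1 with h | h
  · have h1 : Real.log (2 + 2 * r) ≤ Real.log 4 := Real.log_le_log (by linarith) (by linarith)
    have h2 := GTw_log4
    have h3 : 0 ≤ max 0 (Real.log r) := le_max_left _ _
    linarith
  · have h1 : Real.log (2 + 2 * r) ≤ Real.log (4 * r) :=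
      Real.log_le_log (by linarith) (by linarith)
    rw [Real.log_mul (by norm_num) (by linarith)] at h1
    have h2 := GTw_log4
    have h3 : Real.log r ≤ max 0 (Real.log r) := le_max_right _ _
    linarith

/-- the tangent inequality with `log (|U| + |δ|)` -/
private theorem GTw_tan (H : S_MTg) {c U D : ℝ} (hD : 0 < |D|) (hc : |c - U| ≤ |D|) :
    2 * c ^ 2 * Real.log |c| ≤ 2 * U ^ 2 * Real.log |U| +
      (4 * U * Real.log |U| + 2 * U) * (c - U) +
        (c - U) ^ 2 * (4 + 2 * Real.log (|U| + |D|)) := by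
  have h := H c U
  have hle : max |c| |U| ≤ |U| + |D| := by
    apply max_le
    · have h1 := abs_add_le (c - U) U
      rw [sub_add_cancel] at h1
      linarith
    · linarith
  have key : (c - U) ^ 2 * (4 + 2 * Real.log (max |c| |U|)) ≤
      (c - U) ^ 2 * (4 + 2 * Real.log (|U| + |D|)) := by
    rcases (le_max_of_le_left (abs_nonneg c) : 0 ≤ max |c| |U|).eq_or_lt with h0 | h0
    · have hc0 : |c| ≤ 0 := by rw [h0]; exact le_max_left _ _
      have hU0 : |U| ≤ 0 := by rw [h0]; exact le_max_right _ _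
      have hc1 : c = 0 := abs_eq_zero.mp (le_antisymm hc0 (abs_nonneg c))
      have hU1 : U = 0 := abs_eq_zero.mp (le_antisymm hU0 (abs_nonneg U))
      rw [hc1, hU1]
      simp
    · apply mul_le_mul_of_nonneg_left _ (sq_nonneg _)
      have := Real.log_le_log h0 hle
      linarith
  linarith

theorem rGTw (H : S_MTg) : S_GTw := by
  intro p a b hp hp1
  have hv : 0 ≤ p * (1 - p) := mul_nonneg hp (by linarith)
  rcases eq_or_ne a b with hab | hab
  · subst hab
    have e1 : p * a + (1 - p) * a = a := by ring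
    have e2 : dlp p a a = 0 := by
      unfold dlp
      rw [e1]
      have : ((a - a) / 2) ^ 2 = 0 := by ring
      rw [this]
      unfold hh
      rw [Real.negMulLog_zero]
      ring
    rw [e2]
    have h1 : 7 * (p * (1 - p) * (a - a) ^ 2 * (1 + lg |p * a + (1 - p) * a| (a - a))) = 0 := by
      ring
    rw [h1]
  · set U := p * a + (1 - p) * b with hU
    set D := a - b with hDd
    have hD0 : D ≠ 0 := sub_ne_zero.mpr hab
    have hD : 0 < |D| := abs_pos.mpr hD0
    have ea : a - U = (1 - p) * D := by rw [hU, hDd]; ring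
    have eb : b - U = -(p * D) := by rw [hU, hDd]; ring
    have ha := GTw_tan H (c := a) (U := U) (D := D) hD (by
      rw [ea, abs_mul, abs_of_nonneg (by linarith : (0 : ℝ) ≤ 1 - p)]
      nlinarith [hD.le])
    have hb := GTw_tan H (c := b) (U := U) (D := D) hD (by
      rw [eb, abs_neg, abs_mul, abs_of_nonneg hp]
      nlinarith [hD.le])
    rw [ea] at ha
    rw [eb] at hb
    have ha' := mul_le_mul_of_nonneg_left ha hp
    have hb' := mul_le_mul_of_nonneg_left hb (by linarith : (0 : ℝ) ≤ 1 - p)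
    set L := 4 + 2 * Real.log (|U| + |D|) with hL
    have hsum : p * (2 * a ^ 2 * Real.log |a|) + (1 - p) * (2 * b ^ 2 * Real.log |b|) ≤
        2 * U ^ 2 * Real.log |U| + p * (1 - p) * D ^ 2 * L := by
      have e : p * (2 * U ^ 2 * Real.log |U| + (4 * U * Real.log |U| + 2 * U) * ((1 - p) * D) +
          ((1 - p) * D) ^ 2 * L) + (1 - p) * (2 * U ^ 2 * Real.log |U| +
            (4 * U * Real.log |U| + 2 * U) * (-(p * D)) + (-(p * D)) ^ 2 * L) =
          2 * U ^ 2 * Real.log |U| + p * (1 - p) * D ^ 2 * L := by ring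
      linarith
    have hdl : dlp p a b ≤ p * (1 - p) * D ^ 2 * L -
        2 * (p * (1 - p) * D ^ 2) * Real.log (|D| / 2) := by
      have e1 : dlp p a b = -(2 * U ^ 2 * Real.log |U|) +
          4 * (p * (1 - p)) * (-(2 * (D / 2) ^ 2 * Real.log |D / 2|)) -
            (p * (-(2 * a ^ 2 * Real.log |a|)) + (1 - p) * (-(2 * b ^ 2 * Real.log |b|))) := by
        unfold dlp
        rw [← hU, ← hDd, GTw_hh, GTw_hh, GTw_hh, GTw_hh]
      have e2 : |D / 2| = |D| / 2 := by
        rw [abs_div, abs_of_pos (by norm_num : (0 : ℝ) < 2)]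
      rw [e1, e2]
      have e3 : 4 * (p * (1 - p)) * (-(2 * (D / 2) ^ 2 * Real.log (|D| / 2))) =
          -(2 * (p * (1 - p) * D ^ 2) * Real.log (|D| / 2)) := by ring
      rw [e3]
      linarith
    set r := |U| / |D| with hr
    have hr0 : 0 ≤ r := div_nonneg (abs_nonneg _) hD.le
    have hlog : Real.log (|U| + |D|) - Real.log (|D| / 2) = Real.log (2 + 2 * r) := by
      rw [← Real.log_div (by have := abs_nonneg U; linarith) (by positivity)]
      congr 1
      rw [hr]
      field_simp
      ring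
    have hlr := GTw_log hr0
    have hlg : lg |U| D = max 0 (Real.log r) := by
      unfold lg
      rw [hr]
    have hvD : 0 ≤ p * (1 - p) * D ^ 2 := mul_nonneg hv (sq_nonneg _)
    have hm := mul_le_mul_of_nonneg_left hlr hvD
    have e4 : p * (1 - p) * D ^ 2 * L - 2 * (p * (1 - p) * D ^ 2) * Real.log (|D| / 2) =
        4 * (p * (1 - p) * D ^ 2) + 2 * (p * (1 - p) * D ^ 2 * Real.log (2 + 2 * r)) := by
      rw [← hlog, hL]; ring
    rw [e4] at hdl
    have hM : 0 ≤ p * (1 - p) * D ^ 2 * max 0 (Real.log r) :=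
      mul_nonneg hvD (le_max_left _ _)
    rw [hlg]
    nlinarith [hdl, hm, hM]

end Pool.Agent.MP3145b1.RD
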