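import Pool.Agent.Lib.MP_3145b1_co.RD.Spec

/-!
# Project RD: proof of `S_GVar` (logarithmic variation)
-/

set_option autoImplicit false

namespace Pool.Agent.MP3145b1.RD

open Finset Pool.Agent.MP3145b1 Pool.Agent.MP3145b1.RC

private theorem GVar_const {σ : Type} (s : ℕ → σ → Bool → σ) {p : ℕ → σ → ℝ} (hp : Pb p)
    (A : ℕ → Finset σ) (a : ℝ) (ha : 0 ≤ a)
    (n t : ℕ) (x : σ) : EV s p A (fun _ _ => a) 0 n t x ≤ n * a := by
  apply EV_le s hp A (fun _ _ => a) 0 (fun n _ _ => (n : ℝ) * a)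
  · intro t x
    simp
  · intro n t x _
    change (0 : ℝ) ≤ n * a
    positivity
  · intro n t x _
    push_cast
    linarith

open Classical in
private theorem GVar_cnt {σ : Type} (h2 : S_GCnt) (m : ℕ → σ → ℝ) (A : ℕ → Finset σ) (w : ℕ)
    (hcard : ∀ u, (A u).card ≤ w) (b : ℝ) (hb : 0 < b) (u N : ℕ) :
    ∑ k ∈ range N, (if Pr m A (b * (1 / 2) ^ k) u then (1 : ℝ) else 0) ≤ 5 * w := by
  have h := h2 ((A u).image (m u)) b N hb
  have hc : (((A u).image (m u)).card : ℝ) ≤ w := by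
    exact_mod_cast (Finset.card_image_le).trans (hcard u)
  have e : ∑ k ∈ range N, (if Pr m A (b * (1 / 2) ^ k) u then (1 : ℝ) else 0) ≤
      ∑ k ∈ range N, (if ∃ x ∈ (A u).image (m u), ∃ y ∈ (A u).image (m u),
        b * (1 / 2) ^ k ≤ |x - y| ∧ |x - y| ≤ 12 * (b * (1 / 2) ^ k) then (1 : ℝ) else 0) := by
    apply Finset.sum_le_sum
    intro k _
    by_cases hP : Pr m A (b * (1 / 2) ^ k) u
    · rw [if_pos hP, if_pos]
      obtain ⟨y, hy, z, hz, h5, h6⟩ := hP
      exact ⟨m u y, Finset.mem_image_of_mem _ hy, m u z, Finset.mem_image_of_mem _ hz, h5, h6⟩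
    · rw [if_neg hP]
      split_ifs <;> norm_num
  linarith

theorem rGVar (h1 : S_GExc) (h2 : S_GCnt) (h3 : S_GEn) (h4 : S_GPt) : S_GVar := by
  classical
  intro w hw σ s p m A n t x b c hp hb hcard hMg hint
  have hw' : (1 : ℝ) ≤ w := by exact_mod_cast hw
  have hv0 : ∀ u y, 0 ≤ vv p u y := fun u y => vv_nonneg hp u y
  have hv1 : ∀ u y, vv p u y ≤ 1 := fun u y => (vv_le u y).trans (by norm_num)
  have hcS0 : ∀ ρ : ℝ, ∀ u y, 0 ≤ cS s p m ρ u y := by
    intro ρ u y
    unfold cS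
    split_ifs
    · exact mul_nonneg (hv0 u y) (sq_nonneg _)
    · exact le_rfl
  have hcN0 : ∀ ρ : ℝ, 0 < ρ → ∀ u y, 0 ≤ cN s p m ρ u y := by
    intro ρ hρ u y
    unfold cN
    split_ifs
    · exact le_rfl
    · exact div_nonneg (mul_nonneg (hv0 u y) (abs_nonneg _)) hρ.le
  obtain ⟨L, hL⟩ : ∃ L : ℝ, L = EV s p A (cN s p m b) 0 n t x := ⟨_, rfl⟩
  have hL0 : 0 ≤ L := by
    rw [hL]
    exact EV_nonneg s hp A (fun u y _ => hcN0 b hb u y) (fun _ _ => le_rfl) n t x
  obtain ⟨S0, hS0⟩ : ∃ S0 : ℝ, S0 = EV s p A (cS s p m b) 0 n t x := ⟨_, rfl⟩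
  have hS00 : 0 ≤ S0 := by
    rw [hS0]
    exact EV_nonneg s hp A (fun u y _ => hcS0 b u y) (fun _ _ => le_rfl) n t x
  have hEn : S0 ≤ 4 * b ^ 2 * (1 + L) := by
    rw [hS0, hL]
    exact h3 σ s p m A n t x b c hp hb hMg hint
  rw [← hL]
  have hpow0 : ∀ k : ℕ, (0 : ℝ) < (1 / 2) ^ k := fun k => by positivity
  have hpow1 : ∀ k : ℕ, (1 / 2 : ℝ) ^ k ≤ 1 := fun k => pow_le_one₀ (by norm_num) (by norm_num)
  -- the normalized steps
  have hd0 : ∀ u y, 0 ≤ |al s m u y| / b := fun u y => div_nonneg (abs_nonneg _) hb.le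
  have hiff : ∀ (k : ℕ) u y, |al s m u y| ≤ b * (1 / 2) ^ k ↔ |al s m u y| / b ≤ (1 / 2) ^ k := by
    intro k u y
    rw [div_le_iff₀ hb, mul_comm]
  have hiff1 : ∀ u y, |al s m u y| ≤ b ↔ |al s m u y| / b ≤ 1 := by
    intro u y
    rw [div_le_one hb]
  have hsq : ∀ u y, al s m u y ^ 2 = b ^ 2 * (|al s m u y| / b) ^ 2 := by
    intro u y
    rw [div_pow, sq_abs]
    field_simp
  -- one scale
  let e2 : ℕ → ℕ → σ → ℝ := fun k u y => (b * (1 / 2) ^ k) ^ 2 * cN s p m (b * (1 / 2) ^ k) u y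
  let e3 : ℕ → ℕ → σ → ℝ := fun k u y =>
    if Pr m A (b * (1 / 2) ^ k) u then cS s p m (b * (1 / 2) ^ k) u y else 0
  have hexc : ∀ k : ℕ, EV s p A (cS s p m (b * (1 / 2) ^ k)) 0 n t x ≤
      28672 * (b ^ 2 * (1 / 4) ^ k) +
        8 * 28672 * (EV s p A (e2 k) 0 n t x + EV s p A (e3 k) 0 n t x) := by
    intro k
    have hρ : 0 < b * (1 / 2) ^ k := mul_pos hb (hpow0 k)
    have h := h1 σ s p m A (b * (1 / 2) ^ k) n t x hp hρ hMg
    have e : EV s p A (e2 k) 0 n t x + EV s p A (e3 k) 0 n t x =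
        (b * (1 / 2) ^ k) ^ 2 * EV s p A (cG s p m A (b * (1 / 2) ^ k)) 0 n t x := by
      rw [← EV_add0, ← EV_mul0]
      congr 1
      funext u y
      change (b * (1 / 2) ^ k) ^ 2 * cN s p m (b * (1 / 2) ^ k) u y +
          (if Pr m A (b * (1 / 2) ^ k) u then cS s p m (b * (1 / 2) ^ k) u y else 0) =
        (b * (1 / 2) ^ k) ^ 2 * (cN s p m (b * (1 / 2) ^ k) u y +
          (if Pr m A (b * (1 / 2) ^ k) u then
            cS s p m (b * (1 / 2) ^ k) u y / (b * (1 / 2) ^ k) ^ 2 else 0))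
      rw [mul_add]
      congr 1
      by_cases hP : Pr m A (b * (1 / 2) ^ k) u
      · rw [if_pos hP, if_pos hP, mul_div_cancel₀]
        positivity
      · rw [if_neg hP, if_neg hP, mul_zero]
    have hpp : (b * (1 / 2) ^ k) ^ 2 = b ^ 2 * (1 / 4 : ℝ) ^ k := by
      rw [mul_pow, ← pow_mul, mul_comm k 2, pow_mul]
      norm_num
    rw [e]
    rw [mul_add, mul_one] at h
    rw [← hpp]
    linarith
  -- the sum over the scales
  have hsum : ∀ N0 : ℕ, ∑ k ∈ range (N0 + 1), EV s p A (cS s p m (b * (1 / 2) ^ k)) 0 n t x ≤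
      28672 * (240 * w * (b ^ 2 * (1 + L))) := by
    intro N0
    obtain ⟨-, q2, q3⟩ := h4 N0
    have f2 : ∑ k ∈ range (N0 + 1), EV s p A (e2 k) 0 n t x ≤ 2 * S0 + 2 * b ^ 2 * L := by
      rw [← EV_sum0, hS0, hL, ← EV_mul0, ← EV_mul0, ← EV_add0]
      refine EV_mono s hp A (fun u y _ => ?_) (fun _ _ => le_rfl) n t x
      have h := mul_le_mul_of_nonneg_left (q2 (|al s m u y| / b) (hd0 u y))
        (mul_nonneg (hv0 u y) (sq_nonneg b))
      have eL : ∑ k ∈ range (N0 + 1), e2 k u y = vv p u y * b ^ 2 *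
          ∑ k ∈ range (N0 + 1), (1 / 2) ^ k *
            (if |al s m u y| / b ≤ (1 / 2) ^ k then 0 else |al s m u y| / b) := by
        rw [Finset.mul_sum]
        apply Finset.sum_congr rfl
        intro k _
        change (b * (1 / 2) ^ k) ^ 2 * (if |al s m u y| ≤ b * (1 / 2) ^ k then (0 : ℝ) else
          vv p u y * |al s m u y| / (b * (1 / 2) ^ k)) = _
        by_cases hh : |al s m u y| / b ≤ (1 / 2) ^ k
        · rw [if_pos hh, if_pos ((hiff k u y).mpr hh)]
          ring
        · rw [if_neg hh, if_neg (fun h' => hh ((hiff k u y).mp h'))]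
          have := hpow0 k
          field_simp
      have eR : vv p u y * b ^ 2 * (2 * (if |al s m u y| / b ≤ 1 then (|al s m u y| / b) ^ 2 else
          |al s m u y| / b)) = 2 * cS s p m b u y + 2 * b ^ 2 * cN s p m b u y := by
        unfold cS cN
        by_cases hh : |al s m u y| ≤ b
        · rw [if_pos hh, if_pos hh, if_pos ((hiff1 u y).mp hh), hsq]
          ring
        · rw [if_neg hh, if_neg hh, if_neg (fun h' => hh ((hiff1 u y).mpr h'))]
          ring
      rw [← eL, eR] at h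
      exact h
    have f3 : ∑ k ∈ range (N0 + 1), EV s p A (e3 k) 0 n t x ≤ 5 * w * S0 := by
      rw [← EV_sum0, hS0, ← EV_mul0]
      refine EV_mono s hp A (fun u y _ => ?_) (fun _ _ => le_rfl) n t x
      have hcnt := GVar_cnt h2 m A w hcard b hb u (N0 + 1)
      have h5 : ∑ k ∈ range (N0 + 1), e3 k u y ≤
          (∑ k ∈ range (N0 + 1), (if Pr m A (b * (1 / 2) ^ k) u then (1 : ℝ) else 0)) *
            cS s p m b u y := by
        rw [Finset.sum_mul]
        apply Finset.sum_le_sum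
        intro k _
        change (if Pr m A (b * (1 / 2) ^ k) u then cS s p m (b * (1 / 2) ^ k) u y else 0) ≤ _
        by_cases hP : Pr m A (b * (1 / 2) ^ k) u
        · rw [if_pos hP, if_pos hP, one_mul]
          unfold cS
          by_cases hh : |al s m u y| ≤ b * (1 / 2) ^ k
          · have hh' : |al s m u y| ≤ b := hh.trans (by
              have := mul_le_mul_of_nonneg_left (hpow1 k) hb.le
              linarith)
            rw [if_pos hh, if_pos hh']
          · rw [if_neg hh]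
            split_ifs
            · exact mul_nonneg (hv0 u y) (sq_nonneg _)
            · exact le_rfl
        · rw [if_neg hP, if_neg hP, zero_mul]
      exact h5.trans (mul_le_mul_of_nonneg_right hcnt (hcS0 b u y))
    have f1 : ∑ k ∈ range (N0 + 1), EV s p A (cS s p m (b * (1 / 2) ^ k)) 0 n t x ≤
        28672 * (b ^ 2 * ∑ k ∈ range (N0 + 1), ((1 : ℝ) / 4) ^ k) +
          8 * 28672 * (∑ k ∈ range (N0 + 1), EV s p A (e2 k) 0 n t x +
            ∑ k ∈ range (N0 + 1), EV s p A (e3 k) 0 n t x) := by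
      rw [Finset.mul_sum, Finset.mul_sum, ← Finset.sum_add_distrib, Finset.mul_sum,
        ← Finset.sum_add_distrib]
      apply Finset.sum_le_sum
      intro k _
      exact hexc k
    have hb2 : 0 < b ^ 2 := by positivity
    have g1 : b ^ 2 * ∑ k ∈ range (N0 + 1), ((1 : ℝ) / 4) ^ k ≤ b ^ 2 * (4 / 3) :=
      mul_le_mul_of_nonneg_left q3 hb2.le
    have g2 : w * S0 ≤ w * (4 * b ^ 2 * (1 + L)) := mul_le_mul_of_nonneg_left hEn (by linarith)
    have g3 : b ^ 2 * (1 + L) ≤ w * (b ^ 2 * (1 + L)) := by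
      have : 0 ≤ b ^ 2 * (1 + L) := by positivity
      nlinarith
    have g4 : 0 ≤ b ^ 2 * L := by positivity
    nlinarith
  -- fixed `N0`
  have key : ∀ N0 : ℕ, EV s p A (fun u y => if |al s m u y| ≤ b then
      vv p u y * al s m u y ^ 2 * (1 + lg b (al s m u y)) else 0) 0 n t x ≤
      7000000 * w * b ^ 2 * (1 + L) + n * (b ^ 2 * (1 / 2) ^ N0) := by
    intro N0
    obtain ⟨q1, -, -⟩ := h4 N0
    have hm := EV_mono s hp A
      (c := fun u y => if |al s m u y| ≤ b then
        vv p u y * al s m u y ^ 2 * (1 + lg b (al s m u y)) else 0)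
      (c' := fun u y => (cS s p m b u y +
        ∑ k ∈ range (N0 + 1), cS s p m (b * (1 / 2) ^ k) u y) + b ^ 2 * (1 / 2) ^ N0)
      (q := 0) (q' := 0)
      (fun u y _ => by
        have hN : (0 : ℝ) ≤ b ^ 2 * (1 / 2) ^ N0 := by positivity
        change (if |al s m u y| ≤ b then
          vv p u y * al s m u y ^ 2 * (1 + lg b (al s m u y)) else 0) ≤
          (cS s p m b u y + ∑ k ∈ range (N0 + 1), cS s p m (b * (1 / 2) ^ k) u y) +
            b ^ 2 * (1 / 2) ^ N0
        by_cases hh : |al s m u y| ≤ b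
        · have h := mul_le_mul_of_nonneg_left (q1 (|al s m u y| / b) (hd0 u y) ((hiff1 u y).mp hh))
            (mul_nonneg (hv0 u y) (sq_nonneg b))
          have elg : lg b (al s m u y) = max 0 (Real.log (1 / (|al s m u y| / b))) := by
            unfold lg
            rw [one_div_div]
          have es : ∑ k ∈ range (N0 + 1), cS s p m (b * (1 / 2) ^ k) u y = vv p u y * b ^ 2 *
              ∑ k ∈ range (N0 + 1),
                (if |al s m u y| / b ≤ (1 / 2) ^ k then (|al s m u y| / b) ^ 2 else 0) := by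
            rw [Finset.mul_sum]
            apply Finset.sum_congr rfl
            intro k _
            change (if |al s m u y| ≤ b * (1 / 2) ^ k then vv p u y * al s m u y ^ 2 else 0) = _
            by_cases hk : |al s m u y| / b ≤ (1 / 2) ^ k
            · rw [if_pos hk, if_pos ((hiff k u y).mpr hk), hsq]
              ring
            · rw [if_neg hk, if_neg (fun h' => hk ((hiff k u y).mp h')), mul_zero]
          have e0 : cS s p m b u y = vv p u y * al s m u y ^ 2 := by
            change (if |al s m u y| ≤ b then vv p u y * al s m u y ^ 2 else 0) = _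
            rw [if_pos hh]
          rw [if_pos hh, e0, es, elg]
          have hvN : vv p u y * b ^ 2 * (1 / 2) ^ N0 ≤ b ^ 2 * (1 / 2) ^ N0 := by
            have := mul_le_mul_of_nonneg_right (hv1 u y) hN
            linarith
          have eM : vv p u y * al s m u y ^ 2 *
              (1 + max 0 (Real.log (1 / (|al s m u y| / b)))) = vv p u y * al s m u y ^ 2 +
              vv p u y * b ^ 2 * ((|al s m u y| / b) ^ 2 *
                max 0 (Real.log (1 / (|al s m u y| / b)))) := by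
            rw [hsq]
            ring
          rw [eM]
          rw [mul_add (vv p u y * b ^ 2)] at h
          linarith
        · rw [if_neg hh]
          have h6 : 0 ≤ ∑ k ∈ range (N0 + 1), cS s p m (b * (1 / 2) ^ k) u y :=
            Finset.sum_nonneg (fun k _ => hcS0 _ u y)
          have := hcS0 b u y
          linarith) (fun _ _ => le_rfl) n t x
    rw [EV_add0 s p A (fun u y => cS s p m b u y +
        ∑ k ∈ range (N0 + 1), cS s p m (b * (1 / 2) ^ k) u y) (fun _ _ => b ^ 2 * (1 / 2) ^ N0),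
      EV_add0 s p A (fun u y => cS s p m b u y)
        (fun u y => ∑ k ∈ range (N0 + 1), cS s p m (b * (1 / 2) ^ k) u y),
      EV_sum0 s p A (range (N0 + 1)) (fun k => cS s p m (b * (1 / 2) ^ k))] at hm
    have hcst := GVar_const s hp A (b ^ 2 * (1 / 2 : ℝ) ^ N0) (by positivity) n t x
    have hs := hsum N0
    have hS0' : EV s p A (fun u y => cS s p m b u y) 0 n t x = S0 := hS0.symm
    rw [hS0'] at hm
    have g3 : b ^ 2 * (1 + L) ≤ w * (b ^ 2 * (1 + L)) := by
      have : 0 ≤ b ^ 2 * (1 + L) := by positivity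
      nlinarith
    have g5 : 0 ≤ w * (b ^ 2 * (1 + L)) := by positivity
    nlinarith
  have hlim : Filter.Tendsto (fun N0 : ℕ => 7000000 * w * b ^ 2 * (1 + L) +
      (n : ℝ) * (b ^ 2 * (1 / 2) ^ N0))
      Filter.atTop (nhds (7000000 * w * b ^ 2 * (1 + L) + (n : ℝ) * (b ^ 2 * 0))) := by
    apply Filter.Tendsto.const_add
    apply Filter.Tendsto.const_mul
    apply Filter.Tendsto.const_mul
    exact tendsto_pow_atTop_nhds_zero_of_lt_one (by norm_num) (by norm_num)
  have hfin := ge_of_tendsto' hlim key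
  rw [mul_zero, mul_zero, add_zero] at hfin
  exact hfin

end Pool.Agent.MP3145b1.RD
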