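import Pool.Agent.Lib.MP_3145b1_co.RC.Asm
import Pool.Agent.Lib.MP_3145b1_co.RD.GFar
import Pool.Agent.Lib.MP_3145b1_co.RD.GRch
import Pool.Agent.Lib.MP_3145b1_co.RD.GInP
import Pool.Agent.Lib.MP_3145b1_co.RD.GPk
import Pool.Agent.Lib.MP_3145b1_co.RD.GExc
import Pool.Agent.Lib.MP_3145b1_co.RD.GCnt
import Pool.Agent.Lib.MP_3145b1_co.RD.GEn
import Pool.Agent.Lib.MP_3145b1_co.RD.GPt
import Pool.Agent.Lib.MP_3145b1_co.RD.GVar
import Pool.Agent.Lib.MP_3145b1_co.RD.GF3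
import Pool.Agent.Lib.MP_3145b1_co.RD.GFb
import Pool.Agent.Lib.MP_3145b1_co.RD.GF4
import Pool.Agent.Lib.MP_3145b1_co.RD.GTw
import Pool.Agent.Lib.MP_3145b1_co.RD.GTc
import Pool.Agent.Lib.MP_3145b1_co.RD.GSg
import Pool.Agent.Lib.MP_3145b1_co.RD.GLg
import Pool.Agent.Lib.MP_3145b1_co.RD.GPg
import Pool.Agent.Lib.MP_3145b1_co.RD.GFn

/-!
# MP_3145b1_co, project RD: assembly
-/

set_option autoImplicit false

namespace Pool.Agent.MP3145b1.RD

open Finset Pool.Agent.MP3145b1 Pool.Agent.MP3145b1.RC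

theorem gInP : S_GInP := rGInP rGFar rGRch rMea rSid

theorem gExc : S_GExc := rGExc (rGPk gInP)

theorem gVar : S_GVar := rGVar gExc rGCnt rGEn rGPt

theorem gF4 : S_GF4 := rGF4 rMSq rGF3 (rGFb rMJn rMPs)

theorem gTc : S_GTc := rGTc (rGTw rMTg) rNMg

theorem gSg : S_GSg := rGSg gF4 rNMg gTc (rNSx rNMg) rNSe

theorem gLg : S_GLg := rGLg rGF3 rNMg gTc rNL2

theorem gPg : S_GPg := rGPg rNCh rNSt rNIn rNEm gSg gLg

/-- the entropy-influence inequality for read-once compositions of branching programs of width `w`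
with a constant linear in `w` -/
theorem fin : ∃ C : ℝ, 0 < C ∧ ∀ w : ℕ, 1 ≤ w → ∀ (N : ℕ) (f : (Fin N → Bool) → ℝ), RO w f →
    ∑ S ∈ (univ : Finset (Finset (Fin N))).erase ∅, coeff f S ^ 2 * Real.logb 2 (1 / coeff f S ^ 2) ≤
      C * w * (influence f - (1 - coeff f ∅ ^ 2)) ∧
    specEntropy f ≤ C * w * influence f ∧
    ∃ S : Finset (Fin N), (2 : ℝ) ^ (-(C * w * influence f / 2)) ≤ |coeff f S| :=
  rGFn gVar gPg aClo

end Pool.Agent.MP3145b1.RD
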