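import Pool.Agent.Lib.MP_3145b1_co.RC.Spec
import Pool.Agent.Lib.MP_3145b1_co.RC.SpecN
import Pool.Agent.Lib.MP_3145b1_co.RC.SpecF

/-!
# MP_3145b1_co, project RD (architect helper95): the constant is linear in the width

THEOREM. There is an ABSOLUTE constant `C` such that for all `w ≥ 1` and all read-once compositions `f` of branching
programs of width `w` (`RO w f`): `Ent(f) - h(f^(∅)^2) ≤ C w (I(f) - Var f)`, `Ent(f) ≤ C w I(f)`, and a coefficient is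
at least `2 ^ (- C w I(f) / 2)`. (In project RC the constant depends on `w` in an unspecified, doubly exponential way.)
Idea: at one scale no induction on the number of states is needed (`GPk`, absolute constants) if the energy of the steps
at the times `u` at which two live states have a distance of this scale is counted as a cost; and with `w` live states
at most `5 w` dyadic scales can occur as distances (`GCnt`).

RULES. Module X: file Pool/Agent/Lib/MP_3145b1_co/RD/X.lean, `import Pool.Agent.Lib.MP_3145b1_co.RD.Spec`,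
`set_option autoImplicit false`, `namespace Pool.Agent.MP3145b1.RD`, `open Finset Pool.Agent.MP3145b1 Pool.Agent.MP3145b1.RC`,
final theorem `theorem rX (h1 : S_A) ... : S_X` (the statements under Uses, in this order, are the hypotheses; those which
are not called S_G.. are statements of RC/Spec.lean, RC/SpecM.lean, RC/SpecN.lean, RC/SpecF.lean). Auxiliary lemmas
private, names X_. Definitions and basic lemmas: RC/Def.lean (READ FIRST). MODEL: RC/X.lean means: copy this proved file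
and change it. All statements about `EV` are proved by induction on the number of steps, for all times and states.
-/

set_option autoImplicit false

namespace Pool.Agent.MP3145b1.RD

open Finset Pool.Agent.MP3145b1 Pool.Agent.MP3145b1.RC

/-- two states of `R u` have a distance between `ρ` and `12 ρ` -/
def Pr {σ : Type} (m : ℕ → σ → ℝ) (R : ℕ → Finset σ) (ρ : ℝ) (u : ℕ) : Prop :=
  ∃ y ∈ R u, ∃ z ∈ R u, ρ ≤ |m u y - m u z| ∧ |m u y - m u z| ≤ 12 * ρ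

/-- step condition: as `St`, and at the times with two states at a distance between `1` and `12` the energy of the
step is also at most `ν` -/
def Sg {σ : Type} (s : ℕ → σ → Bool → σ) (p : ℕ → σ → ℝ) (m : ℕ → σ → ℝ) (R : ℕ → Finset σ) (E : ℕ → Set σ)
    (ν : ℕ → σ → ℝ) (u : ℕ) (y : σ) : Prop :=
  ∃ a : Bool → ℝ, (∀ b, |a b - m u y| ≤ 1) ∧
    (∀ b, s u y b ∈ R (u + 1) ∨ s u y b ∈ E (u + 1) → a b = m (u + 1) (s u y b)) ∧
    |p u y * a false + (1 - p u y) * a true - m u y| ≤ ν u y ∧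
    (Pr m R 1 u → p u y * (a false - m u y) ^ 2 + (1 - p u y) * (a true - m u y) ^ 2 ≤ ν u y)

open Classical in
/-- cost: `cN` (larger steps) and, at the times with two states of `A` at a distance of the scale `ρ`, the energy of
the steps `≤ ρ` in units of `ρ^2` -/
noncomputable def cG {σ : Type} (s : ℕ → σ → Bool → σ) (p : ℕ → σ → ℝ) (m : ℕ → σ → ℝ) (A : ℕ → Finset σ) (ρ : ℝ) :
    ℕ → σ → ℝ :=
  fun u y => cN s p m ρ u y + (if Pr m A ρ u then cS s p m ρ u y / ρ ^ 2 else 0)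

/-- positive part of the logarithm of `a / |x|` (`0` for `x = 0`) -/
noncomputable def lg (a x : ℝ) : ℝ := max 0 (Real.log (a / |x|))

/-- cost: energy with a logarithm, `1 + log+ (|m| / |al|)` -/
noncomputable def cL {σ : Type} (s : ℕ → σ → Bool → σ) (p : ℕ → σ → ℝ) (m : ℕ → σ → ℝ) : ℕ → σ → ℝ :=
  fun u y => vv p u y * al s m u y ^ 2 * (1 + lg |m u y| (al s m u y))

/-- logarithmic variation property: for a martingale on a region with at most `w` states per level and values in an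
interval of length `b` -/
def LR (w : ℕ) (C : ℝ) : Prop := ∀ (σ : Type) (s : ℕ → σ → Bool → σ) (p : ℕ → σ → ℝ) (m : ℕ → σ → ℝ)
  (A : ℕ → Finset σ) (n t : ℕ) (x : σ) (b c : ℝ), Pb p → 0 < b → (∀ u, (A u).card ≤ w) →
  (∀ u, ∀ y ∈ A u, Mg s p m u y) → (∀ u, ∀ y ∈ A u, |m u y - c| ≤ b / 2) →
  EV s p A (fun u y => if |al s m u y| ≤ b then vv p u y * al s m u y ^ 2 * (1 + lg b (al s m u y)) else 0) 0 n t x ≤
    C * b ^ 2 * (1 + EV s p A (cN s p m b) 0 n t x)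

/-! ## Part 1: one scale -/

/-- **GFar** (a state with another state at distance 2 to 11 at all times). Uses: nothing. MODEL: RC/Far.lean (but no PK).
Proof. Claim: for `k + u = t + n`, `t ≤ u`, `x ∈ R u` with `|m u x - m t y| < 1`: `1 - (m u x - m t y)^2 ≤ EV s p R (3 ν) q k u x`. Induction on `k`. `k = 0`: `1 ≤ q`. `k + 1`: there is `z ∈ R u` with `2 ≤ |m u z - m t y| ≤ 11`, so `1 ≤ |m u x - m u z| ≤ 12`: `Pr m R 1 u`. Let `a` be as in Sg.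
For every child `x' = s u x b`: `1 - (a b - m t y)^2 ≤ EV .. x'`: if `x' ∈ R` and `|m x' - m t y| < 1` induction; if `x' ∈ R`, `|m x' - m t y| ≥ 1`: the left side is `≤ 0 ≤` EV (EV_nonneg, `ν ≥ 0` on `R` by Sg); if `x' ∈ E`: `|m x' - m t y| ≥ 1`, left side `≤ 0`; otherwise EV `= q ≥ 1`.
Average: `p (a false - c)^2 + (1-p) (a true - c)^2 = (m - c)^2 + 2 (m - c)(mean - m) + energy ≤ (m - c)^2 + 2 ν + ν` (`c = m t y`, `|m - c| < 1`). -/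
def S_GFar : Prop := ∀ (σ : Type) (s : ℕ → σ → Bool → σ) (p : ℕ → σ → ℝ) (m : ℕ → σ → ℝ) (R : ℕ → Finset σ)
  (E : ℕ → Set σ) (ν q : ℕ → σ → ℝ) (t n : ℕ) (y : σ), Pb p → y ∈ R t →
  (∀ u, ∀ x ∈ R u, Sg s p m R E ν u x) → (∀ u, ∀ x ∈ E u, 1 ≤ |m u x - m t y|) →
  (∀ u, t ≤ u → u ≤ t + n → ∃ z ∈ R u, 2 ≤ |m u z - m t y| ∧ |m u z - m t y| ≤ 11) → (∀ u x, 0 ≤ q u x) →
  (∀ u x, x ∉ R u → x ∉ E u → 1 ≤ q u x) →
  (∀ x ∈ R (t + n), |m (t + n) x - m t y| < 1 → 1 ≤ q (t + n) x) →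
  1 ≤ EV s p R (fun u x => 3 * ν u x) q n t y

/-- **GRch** (two separated states). Uses: nothing. MODEL: RC/Rch.lean (for the sets `G_a`).
Proof. For `a ∈ {y, z}` define `G_a : ℕ → Finset σ`: `G_a u = ∅` for `u < t`, `G_a t = {a}`, `G_a (u+1)` = the `x ∈ R (u+1)` with `|m (u+1) x - m t a| < 1/2` and `x = s u x' b` for some `x' ∈ G_a u`, `b`. If `G_a u = ∅` for a `u ≥ t` then `G_a v = ∅` for all `v ≥ u`. So either (i) `G_y u ≠ ∅ → G_z u ≠ ∅` for all `u ≥ t`,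
or (ii) `G_z u ≠ ∅ → G_y u ≠ ∅` for all `u ≥ t` (if (i) fails at `u0`, then every `u ≥ t` with `G_z u ≠ ∅` is `< u0`, and `G_y u ≠ ∅` because `G_y u0 ≠ ∅`). Case (i) (the other one is symmetric): claim: for `k + u = t + n`, `x ∈ G_y u`: `1 - 4 (m u x - m t y)^2 ≤ EV s p R (8 ν) (1 - ind E) k u x`.
Induction on `k`. `k = 0`: `x ∉ E u` (distance `≥ 1/2` from `m t y`), EV `= 1`. `k + 1`: `z' ∈ G_z u` has `1 ≤ |m u x - m u z'| ≤ 12`, so `Pr m R 1 u`. For each child `x'` (with `a b`): `1 - 4 (a b - m t y)^2 ≤ EV .. x'`: `x' ∈ R`, distance `< 1/2`: `x' ∈ G_y (u+1)`, induction; `x' ∈ R` or `x' ∈ E`, distance `≥ 1/2`: left side `≤ 0 ≤` EV;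
otherwise EV `= 1 - ind E = 1`. Average: `4 (2 (1/2) ν + ν) = 8 ν`. For `x = y`: `1 ≤ EV`. -/
def S_GRch : Prop := ∀ (σ : Type) (s : ℕ → σ → Bool → σ) (p : ℕ → σ → ℝ) (m : ℕ → σ → ℝ) (R : ℕ → Finset σ)
  (E : ℕ → Set σ) (ν : ℕ → σ → ℝ) (t n : ℕ) (y z : σ), Pb p → y ∈ R t → z ∈ R t →
  (∀ u, ∀ x ∈ R u, Sg s p m R E ν u x) →
  (∀ u, ∀ x ∈ E u, 1 / 2 ≤ |m u x - m t y| ∧ 1 / 2 ≤ |m u x - m t z|) → 2 ≤ |m t y - m t z| → |m t y - m t z| ≤ 11 →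
  1 ≤ EV s p R (fun u x => 8 * ν u x) (fun u x => 1 - ind E u x) n t y ∨
  1 ≤ EV s p R (fun u x => 8 * ν u x) (fun u x => 1 - ind E u x) n t z

/-- **GInP** (one side). Uses: S_GFar, S_GRch, S_Mea, S_Sid. MODEL: RC/InP.lean (with `K = 1`; `5 * 1 = 5`).
Proof. `a0 = m t x`, `κ = EV s p R ν (1 - ind E) (n1 + n2) t x`, `R' = Rin m R a0 5`, `X = Xt m R E a0 5`, `Kl u = {y | y ∉ R u ∧ y ∉ E u}`, `Bn u = {y | y ∈ R' u ∧ m u y - a0 ≤ 1}`, `t1 = t + n1`. Suppose `κ < 1/448`. (Sg implies St.)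
(1) `EV s p R' ν (ind Kl) n t x ≤ κ` and `EV s p R ν (ind Kl) n t x ≤ κ` for `n ≤ n1` (as in InP). (2) S_Mea for `R'`, `K = 1`: `1/7 ≤ EV s p R' 0 (ind X) n + EV s p R' ν (ind Kl) n + EV s p R' 0 (ind Bn) n`, so for `n ≤ n1`: `EV s p R' 0 (ind Bn) n t x ≥ 1/7 - 1/14 - κ > 0`, and `Bn (t + n)` is not empty.
(3) `Z = {y ∈ R t1 | 3 < m t1 y - a0 < 6}`, `F y = EV s p R (8 ν) (1 - ind E) n2 t1 y`. For `y ∈ Z`, `z ∈ Bn t1`: `2 ≤ |m y - m z| ≤ 11` and E is at distance `≥ 1/2` from both (`|m - a0| ≥ 7` on `E`, `m z - a0 > -5`), so `F y ≥ 1` or `F z ≥ 1` (S_GRch).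
(4) `Q u = {y | y ∉ R u ∧ y ∉ E u} ∪ {y | u = t1 ∧ y ∈ Z}`: S_Sid with `K = 1`, `c = 1`, cost `3 ν`, `q = ind Q`: (Hz): `k + u = t1`, `y ∈ R u`, `4 ≤ m u y - a0 < 5`: S_GFar (for `u ≤ u' ≤ t1` take `z ∈ Bn u'`: `2 ≤ |m z - m y| ≤ 11`; E at distance `≥ 1`; `x ∈ R t1` with `|m x - m u y| < 1` is in `Z`). So
`1/28 ≤ EV s p R (3 ν) (ind Q) n1 t x ≤ 3 EV s p R ν (ind Kl) n1 t x + EV s p R 0 (ind ZZ) n1 t x`, `ZZ u = {y | u = t1 ∧ y ∈ Z}`; the last term is `≥ 1/28 - 3 κ`. (A) If `F y ≥ 1` for all `y ∈ Z`: EV_glue (cost `8 ν`, `q = ind ZZ`, `r = 1 - ind E`): `1/28 - 3 κ ≤ EV s p R (8 ν) (ind ZZ) n1 t x ≤ EV s p R (8 ν) (1 - ind E) (n1 + n2) t x ≤ 8 κ`, a contradiction.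
(B) Otherwise `F z ≥ 1` for all `z ∈ Bn t1`: `1/14 - κ ≤ EV s p R' 0 (ind Bn) n1 t x ≤ EV s p R (8 ν) (ind Bn) n1 t x ≤ 8 κ` (EV_glue), a contradiction. -/
def S_GInP : Prop := ∀ (σ : Type) (s : ℕ → σ → Bool → σ) (p : ℕ → σ → ℝ) (m : ℕ → σ → ℝ) (R : ℕ → Finset σ)
  (E : ℕ → Set σ) (ν : ℕ → σ → ℝ) (t n1 n2 : ℕ) (x : σ), Pb p → x ∈ R t → (∀ u, ∀ y ∈ R u, Sg s p m R E ν u y) →
  (∀ u, ∀ y ∈ R u, |m u y - m t x| < 7) → (∀ u, ∀ y ∈ E u, 7 ≤ |m u y - m t x|) →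
  (∀ n, n ≤ n1 → EV s p (Rin m R (m t x) 5) 0 (ind (Xt m R E (m t x) 5)) n t x < 1 / 14) →
  1 / 28 ≤ EV s p (Rin m R (m t x) 5) 0 (ind (Xp m R E (m t x) 5)) (n1 + 1) t x →
  1 / 448 ≤ EV s p R ν (fun u y => 1 - ind E u y) (n1 + n2) t x

/-- **GPk** (one scale). Uses: S_GInP. MODEL: RC/Ind.lean (`K = 1`; Sg for `-m`: `- a b`, `Pr` does not change). -/
def S_GPk : Prop := ∀ (σ : Type) (s : ℕ → σ → Bool → σ) (p : ℕ → σ → ℝ) (m : ℕ → σ → ℝ) (R : ℕ → Finset σ)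
  (E : ℕ → Set σ) (ν : ℕ → σ → ℝ) (t n : ℕ) (x : σ), Pb p → x ∈ R t → (∀ u, ∀ y ∈ R u, Sg s p m R E ν u y) →
  (∀ u, ∀ y ∈ R u, |m u y - m t x| < 7) → (∀ u, ∀ y ∈ E u, 7 ≤ |m u y - m t x|) →
  1 / 448 ≤ EV s p R ν (fun u y => 1 - ind E u y) n t x

/-- **GExc** (small steps against large steps and shared scales). Uses: S_GPk. MODEL: RC/Exc.lean, with `K = 7`, `c = 1/448`, `D = 64 * 448 = 28672`, no card, `N n u y = 8 * EV s p A (cG s p m A ρ) 0 n u y` instead of `8 * EV (cN)`.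
The only changes: `ν' u (some y) = v |α|/ρ` if `y` is weak (as before), and for a small `y`: `ν' u (some y) = v α^2/ρ^2` if `Pr m A ρ u`, else `0` (so `ν' ≤ cG` always, for strong `y` too). Sg for the new program: small `y`: `a b = m (u+1) (s u y b)/ρ`, mean exact, energy `v α^2/ρ^2` (Mg.sq with `a = m u y`), and `Pr m' R' 1 u` implies `Pr m A ρ u` (the states of `R'` are `some y`, `y ∈ A u`, values `m/ρ`).
weak `y`: `a f = m f/ρ`, `a rare = m u y/ρ`, drift `≤ ν`, energy `(1-π) (π α/ρ)^2 ≤ (2ν)^2 ≤ ν` (`π |α| ≤ 2 ν ρ`, `ν < 1/4`). In the claim at a small `y` of `R`: `N (k+1) = 8 g + avg N k`, `Y (k+1) = g + avg Y k`, `g = ν' u (some y) ≥ 0`, and `8 g - 2 g ≥ 0`. Everything else is the same. -/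
def S_GExc : Prop := ∀ (σ : Type) (s : ℕ → σ → Bool → σ) (p : ℕ → σ → ℝ) (m : ℕ → σ → ℝ) (A : ℕ → Finset σ)
  (ρ : ℝ) (n t : ℕ) (x : σ), Pb p → 0 < ρ → (∀ u, ∀ y ∈ A u, Mg s p m u y) →
  EV s p A (cS s p m ρ) 0 n t x ≤ 28672 * ρ ^ 2 * (1 + 8 * EV s p A (cG s p m A ρ) 0 n t x)

/-! ## Part 2: all scales -/

open Classical in
/-- **GCnt** (number of scales). Uses: nothing.
Proof. For `r > 0` let `N r` be the largest cardinality of a subset of `V` whose different elements have distances `≥ r` (Finset.sup over `V.powerset.filter`); `N r ≤ V.card`. Claim: if `x, y ∈ V`, `ρ ≤ |x - y| ≤ 12 ρ` then `N (32 ρ) + 1 ≤ N ρ`: let `Q` be a `32 ρ`-separated subset with `N (32 ρ)` elements; at most one element of `Q` has distance `< 16 ρ` from `x`.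
If there is none, `Q ∪ {x}` is `ρ`-separated. If it is `q0`: `(Q \ {q0}) ∪ {x, y}` is `ρ`-separated: the other `q` have `|q - x| > 16 ρ`, `|q - y| > 4 ρ`. With `M k = N (32 b 2^(-k))`: `N (b 2^(-k)) = M (k + 5)`, so the sum is `≤ ∑_{k < N0} (M (k+5) - M k) = ∑_{j < 5} (M (N0 + j) - M j) ≤ 5 V.card`
(induction on `N0`: `∑_{k<N0} (M (k+5) - M k) + ∑_{j<5} M j = ∑_{j<5} M (N0 + j)`). -/
def S_GCnt : Prop := ∀ (V : Finset ℝ) (b : ℝ) (N0 : ℕ), 0 < b →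
  ∑ k ∈ range N0, (if ∃ x ∈ V, ∃ y ∈ V, b * (1 / 2) ^ k ≤ |x - y| ∧ |x - y| ≤ 12 * (b * (1 / 2) ^ k) then (1 : ℝ) else 0) ≤
    5 * V.card

/-- **GEn** (energy in an interval). Uses: nothing. MODEL: RB/En.lean.
Proof. Claim: for all `n, u` and `y` with `|m u y - c| ≤ 3b/2`, or `y ∈ A u`: `EV s p A (cS s p m b) 0 n u y ≤ 4 b^2 - (m u y - c)^2 + b^2 EV s p A (cN s p m b) 0 n u y`. Induction on `n`. `y ∉ A u` or `n = 0`: the left side is `0`. `y ∈ A u`, `n + 1`: if `|α| ≤ b` the children are at distance `≤ b` from `m u y` (Mg.child), so `≤ 3b/2` from `c`,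
average, Mg.sq. If `|α| > b`: at most one child is in `A` (values in an interval of length `b`); the other one has EV `0` (left side). If the child `y'` is in `A` and has probability `1 - π` (`π` = probability of the other bit) then `|m y' - m u y| = π |α|`, `(m u y - c)^2 - (m y' - c)^2 ≤ π |α| b`, so
`(1-π)(4 b^2 - (m y' - c)^2) ≤ 4 b^2 - (m u y - c)^2 + (1-π) π |α| b`, and the last term is `b^2 cN` at `y`. (EV of cN is `≥ 0` at the other child.) -/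
def S_GEn : Prop := ∀ (σ : Type) (s : ℕ → σ → Bool → σ) (p : ℕ → σ → ℝ) (m : ℕ → σ → ℝ) (A : ℕ → Finset σ)
  (n t : ℕ) (x : σ) (b c : ℝ), Pb p → 0 < b → (∀ u, ∀ y ∈ A u, Mg s p m u y) → (∀ u, ∀ y ∈ A u, |m u y - c| ≤ b / 2) →
  EV s p A (cS s p m b) 0 n t x ≤ 4 * b ^ 2 * (1 + EV s p A (cN s p m b) 0 n t x)

/-- **GPt** (pointwise inequalities). Uses: nothing.
Proof. (1) `x = 0`: `0`. `0 < x ≤ 1`: if `x ≤ 2^(-N0)`: `x log (1/x) ≤ 1` (`log y ≤ y`), so the left side is `≤ x ≤ 2^(-N0)`. Otherwise let `κ ≤ N0` be the least with `2^(-κ) < x`; `κ ≥ 1`, `log (1/x) ≤ κ log 2 ≤ κ`, and the sum is `κ x^2`. (2) `x ≤ 1`: the `k` with `2^(-k) < x` have `∑ 2^(-k) ≤ 2 x` (geometric, the largest term is `< x`). `x > 1`: `∑ 2^(-k) ≤ 2`. (3) geometric. -/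
def S_GPt : Prop := ∀ N0 : ℕ,
  (∀ x : ℝ, 0 ≤ x → x ≤ 1 → x ^ 2 * max 0 (Real.log (1 / x)) ≤
    ∑ k ∈ range (N0 + 1), (if x ≤ (1 / 2) ^ k then x ^ 2 else 0) + (1 / 2) ^ N0) ∧
  (∀ x : ℝ, 0 ≤ x → ∑ k ∈ range (N0 + 1), (1 / 2) ^ k * (if x ≤ (1 / 2) ^ k then 0 else x) ≤
    2 * (if x ≤ 1 then x ^ 2 else x)) ∧
  ∑ k ∈ range (N0 + 1), ((1 : ℝ) / 4) ^ k ≤ 4 / 3

/-- **GVar** (logarithmic variation). Uses: S_GExc, S_GCnt, S_GEn, S_GPt. MODEL: RC/Var.lean.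
Proof. `D = 28672`, `ρ_k = b 2^(-k)`, `S_k = EV (cS ρ_k)`, `S_0 = EV (cS b)`, `L = EV (cN b)`. S_GExc: `S_k ≤ D ρ_k^2 + 8 D EV (ρ_k^2 cN ρ_k) + 8 D EV (if Pr m A ρ_k u then cS ρ_k else 0)`. Sum over `k ≤ N0`: (a) `∑ ρ_k^2 ≤ (4/3) b^2`. (b) with `x = |α|/b`: `∑_k ρ_k^2 cN ρ_k = v b^2 ∑_k 2^(-k) (if x ≤ 2^(-k) then 0 else x) ≤ 2 cS b + 2 b^2 cN b` (S_GPt (2)).
(c) `cS ρ_k ≤ cS b` and S_GCnt for `V = (A u).image (m u)` (card `≤ w`): `∑_k (if Pr then cS ρ_k else 0) ≤ 5 w cS b`. So `∑_k S_k ≤ D ((4/3) b^2 + 16 (S_0 + b^2 L) + 40 w S_0)`, and S_GEn: `S_0 ≤ 4 b^2 (1 + L)`: `∑_k S_k ≤ 242 D w b^2 (1 + L)` (`w ≥ 1`, `L ≥ 0`).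
(d) S_GPt (1) for `|α| ≤ b`: `v α^2 (1 + lg b α) ≤ cS b + ∑_k cS ρ_k + v b^2 2^(-N0)` (`b/|α| = 1/x`). So the left side is `≤ S_0 + 242 D w b^2 (1 + L) + n b^2 2^(-N0) ≤ (4 + 6938624 w) b^2 (1 + L) + n b^2 2^(-N0)` for all `N0` (ge_of_tendsto or: choose `N0` with `n 2^(-N0) ≤ 1`, there is room: `4 + 1 ≤ 61376 w`). -/
def S_GVar : Prop := ∀ w : ℕ, 1 ≤ w → LR w (7000000 * w)

/-- **GF3** (variation against the second moment). Uses: nothing. MODEL: RC/MF3.lean, the same proof and constants (read the docstring of RC.S_MF3).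
Changes: the cost is `cL`. `a = 0`: cost `e` (`lg 0 _ = 0`), `F n = e + avg F n' ≤ e + 16 C Q n - 10 C ((m u y)^2 + e)`. `a > 0`: `E1 k v z = EV s p R (if α z ≤ a then (3/2) * (vv α^2 (1 + lg a (al))) else 0)`, `E2` as before. For `z ∈ R v` (`|m v z| < 3a/2`): if `α ≤ a`: `lg |m| al ≤ 1/2 + lg a al` (`log (3/2) ≤ 1/2`), so
`cost ≤ (3/2) vv α^2 (1 + lg a al)`. If `α > a`: `|m v z| < (3/2) α`, `lg ≤ 1/2`, `cost ≤ (3/2) e`, and `3/2 + (3/2) C + 6 C ≤ 10 C`. At the end LR (values of `R` in the interval with centre `m u y` and length `b = a`): `E1 ≤ (3/2) C a^2 (1 + EV s p R (cN s p m a)) ≤ (3/2) C a^2 + E2`. -/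
def S_GF3 : Prop := ∀ (w : ℕ) (C : ℝ), 1 ≤ C → LR w C → ∀ (σ : Type) (s : ℕ → σ → Bool → σ)
  (p : ℕ → σ → ℝ) (m : ℕ → σ → ℝ) (A : ℕ → Finset σ) (n t : ℕ) (x : σ), Pb p → (∀ u, (A u).card ≤ w) →
  (∀ u, ∀ y ∈ A u, Mg s p m u y) →
  EV s p A (cL s p m) 0 n t x ≤ 16 * C * EV s p A 0 (fun u y => m u y ^ 2) n t x

/-- **GFb** (variation of a martingale in `[0, 1]`). Uses: S_MJn, S_MPs. MODEL: RC/MFb.lean, the same proof and constants (read the docstring of RC.S_MFb).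
Changes: cost `vv α^2 (1 + lg 1 al)` (`α = |al| ≤ 1`, so `lg 1 al = log (1/α)`). `E1 k v z = EV s p R (if α ≤ a then vv α^2 (1 + lg a al) else 0)`, `E2` as before (`C vv (α sqrt α)` for `α > a`). `α ≤ a`: `lg 1 al ≤ lg a al + log (1/a)` and `log (1/a) = 2 log (1/sqrt a) ≤ 2/sqrt a`, so `cost ≤ (cost of E1) + 2 e/sqrt a`, and `2 + 4 C ≤ 80 C * 5/32`.
`α > a`: `log (1/α) ≤ 2/sqrt α`, `cost ≤ vv (α^2 + 2 α sqrt α) ≤ 3 vv α sqrt α`, and `3 + C + 6 C ≤ 80 C * 5/32`. At the end LR (centre `a`, `b = a`): `E1 ≤ C a^2 (1 + EV s p R (cN s p m a)) ≤ C a sqrt a + E2` (`a^2 ≤ a sqrt a`; for `α > a`: `a^2 vv α/a = vv a α ≤ vv α sqrt α`, as `a ≤ sqrt a ≤ sqrt α`). -/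
def S_GFb : Prop := ∀ (w : ℕ) (C : ℝ), 1 ≤ C → LR w C → ∀ (σ : Type) (s : ℕ → σ → Bool → σ)
  (p : ℕ → σ → ℝ) (m : ℕ → σ → ℝ) (A : ℕ → Finset σ) (n t : ℕ) (x : σ), Pb p → (∀ u, (A u).card ≤ w) →
  (∀ u, ∀ y ∈ A u, Mg s p m u y) → (∀ u y, 0 ≤ m u y ∧ m u y ≤ 1) →
  EV s p A (fun u y => vv p u y * al s m u y ^ 2 * (1 + lg 1 (al s m u y))) 0 n t x ≤ 82 * C * m t x

/-- **GF4** (sharp form for martingales in `[-1, 1]`). Uses: S_MSq, S_GF3, S_GFb. MODEL: RC/MF4.lean.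
Proof. As RC.S_MF4: S_GFb for `(1 - m)/2` and `(1 + m)/2` (`al` is `∓ al/2`): `cL ≤ vv al^2 (1 + lg 1 al) ≤ 4 vv (al/2)^2 (1 + lg 1 (al/2))` (`|m| ≤ 1`; lg is monotone: `lg 1 al ≤ lg 1 (al/2)`, both `0` if `al = 0`), so `EV (cL) ≤ 164 C (1 - |m0|)`. The rest is the same. -/
def S_GF4 : Prop := ∀ (w : ℕ) (C : ℝ), 1 ≤ C → LR w C → ∀ (σ : Type) (s : ℕ → σ → Bool → σ)
  (p : ℕ → σ → ℝ) (m : ℕ → σ → ℝ) (A : ℕ → Finset σ) (n t : ℕ) (x : σ), Pb p → (∀ u, (A u).card ≤ w) →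
  (∀ u, ∀ y ∈ A u, Mg s p m u y) → (∀ u y, |m u y| ≤ 1) →
  EV s p A (cL s p m) 0 n t x ≤ 328 * C * (EV s p A 0 (fun u y => |m u y| - m u y ^ 2) n t x +
    EV s p A (fun u y => vv p u y * al s m u y ^ 2) 0 n t x)

/-- **GTw** (two-point inequality with a biased coin). Uses: S_MTg. MODEL: RC/MTw.lean.
Proof. `U = p a + (1-p) b`, `δ = a - b`, `v = p (1-p)`, `r = |U|/|δ|`. As in RC.S_MTw: `dlp ≤ v δ^2 (4 + 2 log (2 + 2 r))`. `r < 1`: `log (2 + 2r) ≤ log 4 ≤ 3/2`, `dlp ≤ 7 v δ^2`. `r ≥ 1`: `log (2 + 2r) ≤ 3/2 + log r`, `dlp ≤ v δ^2 (7 + 2 log r)`, `lg |U| δ = log r`. -/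
def S_GTw : Prop := ∀ (p a b : ℝ), 0 ≤ p → p ≤ 1 →
  dlp p a b ≤ 7 * (p * (1 - p) * (a - b) ^ 2 * (1 + lg |p * a + (1 - p) * b| (a - b)))

/-! ## Part 3: programs -/

/-- **GTc** (two-point inequality along the walk). Uses: S_GTw, S_NMg. MODEL: RC/NTw.lean. -/
def S_GTc : Prop := ∀ (w n : ℕ) (s : ℕ → Fin w → Bool → Fin w) (v : ℕ → Fin w → ℕ) (p : ℕ → ℝ) (o : Fin w → ℝ)
  (x : Fin w) (T : Finset ℕ), (∀ i, 0 ≤ p i ∧ p i ≤ 1) → (∀ z, o z = 1 ∨ o z = -1) →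
  EV s (pn v p) (At v n T) (DT s v p o n T) 0 n 0 x ≤
    7 * EV s (pn v p) (At v n T) (cL s (pn v p) (mt s v p o n T)) 0 n 0 x

/-- **GSg** (singletons). Uses: S_GF4, S_NMg, S_GTc, S_NSx, S_NSe. MODEL: RC/NSg.lean.
Proof. For every `j`: `EV DT ≤ 7 * 328 C (X + en)`. Multiply by `wt {j} ≥ 0`, sum over `j < M`: S_NSx, S_NSe. -/
def S_GSg : Prop := ∀ (w : ℕ) (C : ℝ), 1 ≤ C → LR w C → ∀ (n M : ℕ) (s : ℕ → Fin w → Bool → Fin w)
  (v : ℕ → Fin w → ℕ) (p : ℕ → ℝ) (o : Fin w → ℝ) (x : Fin w), (∀ i, 0 ≤ p i ∧ p i ≤ 1) → (∀ t z, v t z < M) →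
  (∀ z, o z = 1 ∨ o z = -1) → (∀ t z, t < n → |Om s v p o n ∅ t z| ≤ J1 s v p o n M t z) →
  ∑ j ∈ range M, wt p {j} * EV s (pn v p) (At v n {j}) (DT s v p o n {j}) 0 n 0 x ≤
    2296 * C * (2 * BB s v p o n M x)

/-- **GLg** (sets with at least two elements). Uses: S_GF3, S_NMg, S_GTc, S_NL2. MODEL: RC/NLg.lean.
Proof. For every `T`: `EV DT ≤ 7 * 16 C Q`, `Q = EV At 0 (mt T ^2)`. Multiply by `wt T ≥ 0`, sum, S_NL2. -/
def S_GLg : Prop := ∀ (w : ℕ) (C : ℝ), 1 ≤ C → LR w C → ∀ (n M : ℕ) (s : ℕ → Fin w → Bool → Fin w)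
  (v : ℕ → Fin w → ℕ) (p : ℕ → ℝ) (o : Fin w → ℝ) (x : Fin w), (∀ i, 0 ≤ p i ∧ p i ≤ 1) → (∀ t z, v t z < M) → Ro s v n →
  (∀ z, o z = 1 ∨ o z = -1) →
  ∑ T ∈ (range M).powerset.filter (fun T => 2 ≤ T.card), wt p T *
    EV s (pn v p) (At v n T) (DT s v p o n T) 0 n 0 x ≤ 112 * C * BB s v p o n M x

/-- **GPg** (the entropy inequality for programs). Uses: S_NCh, S_NSt, S_NIn, S_NEm, S_GSg, S_GLg. MODEL: RC/NPg.lean.
Proof. Total `≤ hh (c_∅^2) + (2 + 4592 C + 112 C) BB ≤ hh (c_∅^2) + 4706 C BB` (`C ≥ 1`, `BB ≥ 0`). -/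
def S_GPg : Prop := ∀ (w : ℕ) (C : ℝ), 1 ≤ C → LR w C → PG w (4706 * C)

/-- **GFn** (final statement). Uses: S_GVar, S_GPg, S_Clo. MODEL: RC/Fin.lean.
Proof. `K = 4706 * (7000000 * w) ≥ 1`, `PG w K` by S_GPg, S_GVar; S_Clo with `K0 = K`. `C = 4706 * 7000000 / log 2`, so `C * w = K / log 2`; the rest as in RC/Fin.lean. -/
def S_GFn : Prop := ∃ C : ℝ, 0 < C ∧ ∀ w : ℕ, 1 ≤ w → ∀ (N : ℕ) (f : (Fin N → Bool) → ℝ), RO w f →
  ∑ S ∈ (univ : Finset (Finset (Fin N))).erase ∅, coeff f S ^ 2 * Real.logb 2 (1 / coeff f S ^ 2) ≤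
    C * w * (influence f - (1 - coeff f ∅ ^ 2)) ∧
  specEntropy f ≤ C * w * influence f ∧ ∃ S : Finset (Fin N), (2 : ℝ) ^ (-(C * w * influence f / 2)) ≤ |coeff f S|

end Pool.Agent.MP3145b1.RD
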